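import Mathlib

/-!
A soluble local hereditary formation which is not radical although every soluble minimal
non-`F`-group `G` has all its proper subgroups of nilpotent length less than that of `G`.

Outline. Call a finite group `Y` bad if it has a homomorphism onto `S_3` whose kernel is a
self-centralising minimal normal `5`-subgroup (so `Y` is the affine group `F_5^2 ⋊ S_3`).
The formation consists of the finite soluble groups `G` with a normal `7'`-subgroup `N` such that
`G / N` has no bad section.  It is not a Fitting class because `F_5^3 ⋊ (S_3 × F_5^*)`, which has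
a bad section, is the product of the two normal subgroups of all `(v, s, u)` with `u ^ 2 = sgn s`
and with `sgn s = 1`, which have none.
-/

set_option autoImplicit false
set_option linter.unusedVariables false

namespace Pool.Agent.Results.MP_99d208_al.NotRadical

/-- `NilLe n G`: the group `G` has a normal series of length `n` with nilpotent factors, that is
`G` has nilpotent length at most `n`. -/
def NilLe : ℕ → (G : Type) → [Group G] → Prop
  | 0, G, _ => Subsingleton G
  | n + 1, G, _ => ∃ (N : Subgroup G) (_ : N.Normal), Group.IsNilpotent N ∧ NilLe n (G ⧸ N)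

lemma nilp_of_injective {G H : Type} [Group G] [Group H] (f : G →* H)
    (hf : Function.Injective f) (h : Group.IsNilpotent H) : Group.IsNilpotent G := by
  have h1 : Group.IsNilpotent f.range := inferInstance
  exact Group.nilpotent_of_mulEquiv (MonoidHom.ofInjective hf).symm

lemma nilp_of_surjective {G H : Type} [Group G] [Group H] (f : G →* H)
    (hf : Function.Surjective f) (h : Group.IsNilpotent G) : Group.IsNilpotent H :=
  Group.nilpotent_of_surjective f hf

lemma nilp_of_le {G : Type} [Group G] {A B : Subgroup G} (hAB : A ≤ B)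
    (h : Group.IsNilpotent B) : Group.IsNilpotent A :=
  nilp_of_injective (Subgroup.inclusion hAB) (Subgroup.inclusion_injective hAB) h

lemma nilp_map {G H : Type} [Group G] [Group H] (f : G →* H) {A : Subgroup G}
    (h : Group.IsNilpotent A) : Group.IsNilpotent (A.map f) :=
  nilp_of_surjective (f.subgroupMap A) (f.subgroupMap_surjective A) h

lemma NilLe.of_injective {n : ℕ} : ∀ {G H : Type} [Group G] [Group H] (f : H →* G),
    Function.Injective f → NilLe n G → NilLe n H := by
  induction n with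
  | zero =>
    intro G H _ _ f hf h
    have : Subsingleton G := h
    exact hf.subsingleton
  | succ n ih =>
    intro G H _ _ f hf h
    obtain ⟨N, hN, h1, h2⟩ := h
    refine ⟨N.comap f, inferInstance, ?_, ?_⟩
    · refine nilp_of_injective (f.subgroupComap N) ?_ h1
      intro x y hxy
      exact Subtype.ext (hf (congrArg Subtype.val hxy))
    · refine ih (QuotientGroup.map (N.comap f) N f le_rfl) ?_ h2
      rw [← MonoidHom.ker_eq_bot_iff, eq_bot_iff]
      intro x hx
      obtain ⟨x, rfl⟩ := QuotientGroup.mk'_surjective _ x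
      rw [MonoidHom.mem_ker] at hx
      change (QuotientGroup.mk (f x) : G ⧸ N) = 1 at hx
      rw [QuotientGroup.eq_one_iff] at hx
      rw [Subgroup.mem_bot]
      exact (QuotientGroup.eq_one_iff x).2 hx

lemma NilLe.of_surjective {n : ℕ} : ∀ {G Q : Type} [Group G] [Group Q] (f : G →* Q),
    Function.Surjective f → NilLe n G → NilLe n Q := by
  induction n with
  | zero =>
    intro G Q _ _ f hf h
    have : Subsingleton G := h
    exact hf.subsingleton
  | succ n ih =>
    intro G Q _ _ f hf h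
    obtain ⟨N, hN, h1, h2⟩ := h
    have hn : (N.map f).Normal := hN.map f hf
    refine ⟨N.map f, hn, nilp_map f h1, ?_⟩
    refine ih (QuotientGroup.map N (N.map f) f (Subgroup.le_comap_map f N)) ?_ h2
    intro y
    obtain ⟨y, rfl⟩ := QuotientGroup.mk'_surjective _ y
    obtain ⟨x, rfl⟩ := hf y
    exact ⟨QuotientGroup.mk x, rfl⟩

lemma NilLe.succ {n : ℕ} {G : Type} [Group G] (h : NilLe n G) : NilLe (n + 1) G := by
  refine ⟨⊥, inferInstance, inferInstance, ?_⟩
  exact NilLe.of_surjective (QuotientGroup.mk' ⊥) (QuotientGroup.mk'_surjective _) h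

lemma NilLe.mono {m n : ℕ} (hmn : m ≤ n) {G : Type} [Group G] (h : NilLe m G) : NilLe n G := by
  induction n, hmn using Nat.le_induction with
  | base => exact h
  | succ n _ ih => exact ih.succ

lemma nilLe_one_of_nilp {G : Type} [Group G] (h : Group.IsNilpotent G) : NilLe 1 G := by
  refine ⟨⊤, inferInstance, ?_, ?_⟩
  · exact Group.isNilpotent_top.2 h
  · exact QuotientGroup.subsingleton_quotient_top

lemma nilp_of_nilLe_one {G : Type} [Group G] (h : NilLe 1 G) : Group.IsNilpotent G := by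
  obtain ⟨N, hN, h1, h2⟩ := h
  have h3 : Subsingleton (G ⧸ N) := h2
  have h4 : N = ⊤ := QuotientGroup.subgroup_eq_top_of_subsingleton N h3
  rw [h4] at h1
  exact Group.isNilpotent_top.1 h1

/-- A version with a homomorphism: the kernel is nilpotent and the image has length at most `n`. -/
lemma NilLe.of_ker {n : ℕ} {G Q : Type} [Group G] [Group Q] (f : G →* Q)
    (h1 : Group.IsNilpotent f.ker) (h2 : NilLe n f.range) : NilLe (n + 1) G := by
  refine ⟨f.ker, inferInstance, h1, ?_⟩
  exact NilLe.of_injective (QuotientGroup.quotientKerEquivRange f).toMonoidHom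
    (QuotientGroup.quotientKerEquivRange f).injective h2

/-- Sylow criterion for nilpotency. -/
lemma nilp_of_sylow {G : Type} [Group G] [Finite G]
    (h : ∀ (p : ℕ) (_ : Fact p.Prime) (P : Sylow p G), (P : Subgroup G).Normal) :
    Group.IsNilpotent G := by
  exact (Group.isNilpotent_of_finite_tfae.out 0 3 rfl rfl).2 h

/-- The Frattini argument: if `Z` is a normal subgroup contained in the Frattini subgroup and
`E` is a normal subgroup containing `Z` with nilpotent image in the quotient by `Z`, then `E` is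
nilpotent. -/
lemma frattini_nilp {G Q : Type} [Group G] [Group Q] [Finite G] (π : G →* Q)
    (hπ : Function.Surjective π) (hess : ∀ U : Subgroup G, U.map π = ⊤ → U = ⊤)
    (E : Subgroup G) (hE : E.Normal) (hnil : Group.IsNilpotent (E.map π)) :
    Group.IsNilpotent E := by
  have : Finite Q := Finite.of_surjective π hπ
  apply nilp_of_sylow
  intro p hp P
  -- the image of `P` is a normal subgroup of `Q`
  set f : E →* E.map π := π.subgroupMap E with hf
  have hfs : Function.Surjective f := π.subgroupMap_surjective E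
  have h1 : ((P.mapSurjective hfs : Sylow p (E.map π)) : Subgroup (E.map π)).Normal := inferInstance
  have h2 := (P.mapSurjective hfs).characteristic_of_normal h1
  have hEn : (E.map π).Normal := hE.map π hπ
  have h3 : (((P.mapSurjective hfs : Sylow p (E.map π)) : Subgroup (E.map π)).map
      (E.map π).subtype).Normal := inferInstance
  have h4 : (((P.mapSurjective hfs : Sylow p (E.map π)) : Subgroup (E.map π)).map
      (E.map π).subtype) = ((P : Subgroup E).map E.subtype).map π := by
    rw [Sylow.coe_mapSurjective, Subgroup.map_map, Subgroup.map_map]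
    rfl
  rw [h4] at h3
  -- the preimage
  set P' : Subgroup G := (P : Subgroup E).map E.subtype with hP'
  set R : Subgroup G := (P'.map π).comap π with hR
  have hRn : R.Normal := h3.comap π
  have hPR : P' ≤ R := Subgroup.le_comap_map π P'
  -- `P'` is a Sylow subgroup of `R ⊓ E`
  set N : Subgroup G := R ⊓ E with hN
  have hNn : N.Normal := inferInstance
  have hP'E : P' ≤ E := by
    rw [hP']; exact Subgroup.map_subtype_le _
  have hP'N : P' ≤ N := le_inf hPR hP'E
  -- Sylow subgroup of N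
  have hPG : IsPGroup p P' := by
    rw [hP']; exact P.isPGroup'.map _
  let PN : Sylow p N :=
    { toSubgroup := P'.subgroupOf N
      isPGroup' := hPG.comap_of_injective N.subtype N.subtype_injective
      is_maximal' := by
        intro T hT hle
        have h5 : ((T.map N.subtype).comap E.subtype) = (P : Subgroup E) := by
          apply P.is_maximal'
          · exact (hT.map N.subtype).comap_of_injective E.subtype E.subtype_injective
          · intro x hx
            rw [Subgroup.mem_comap]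
            have hx' : (x : G) ∈ P' := ⟨x, hx, rfl⟩
            exact ⟨⟨x, hP'N hx'⟩, hle (by rw [Subgroup.mem_subgroupOf]; exact hx'), rfl⟩
        apply le_antisymm _ hle
        intro x hx
        rw [Subgroup.mem_subgroupOf]
        have hxE : (x : G) ∈ E := x.2.2
        have h6 : (⟨(x : G), hxE⟩ : E) ∈ (P : Subgroup E) := by
          rw [← h5, Subgroup.mem_comap]
          exact ⟨x, hx, rfl⟩
        exact ⟨⟨(x : G), hxE⟩, h6, rfl⟩ }
  have h7 := PN.normalizer_sup_eq_top
  have h8 : (PN : Subgroup N).map N.subtype = P' := by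
    show (P'.subgroupOf N).map N.subtype = P'
    rw [Subgroup.subgroupOf_map_subtype, inf_eq_left.2 hP'N]
  rw [h8] at h7
  have h9 : (Subgroup.normalizer (P' : Set G)).map π = ⊤ := by
    rw [eq_top_iff]
    have h10 : (Subgroup.normalizer (P' : Set G) ⊔ N).map π = ⊤ := by
      rw [h7]; exact Subgroup.map_top_of_surjective π hπ
    rw [← h10, Subgroup.map_sup]
    apply sup_le le_rfl
    have h11 : N.map π ≤ P'.map π := by
      refine (Subgroup.map_mono inf_le_left).trans ?_
      exact Subgroup.map_comap_le π _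
    exact h11.trans (Subgroup.map_mono Subgroup.le_normalizer)
  have h12 := hess _ h9
  have h13 : P'.Normal := Subgroup.normalizer_eq_top_iff.1 h12
  have h14 : (P : Subgroup E) = P'.comap E.subtype := by
    rw [hP', Subgroup.comap_map_eq_self_of_injective E.subtype_injective]
  rw [h14]
  exact h13.comap _

/-- The symmetric group of degree three. -/
abbrev S3 : Type := Equiv.Perm (Fin 3)

lemma S3_normal_aux : ∀ r : S3, r ≠ 1 → ∀ x : S3, Equiv.Perm.sign x = 1 →
    ∃ g h : S3, x = g * r * g⁻¹ * (h * r⁻¹ * h⁻¹) := by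
  decide +kernel

lemma S3_normal (R : Subgroup S3) (hR : R.Normal) (h : R ≠ ⊥) :
    (Equiv.Perm.sign : S3 →* ℤˣ).ker ≤ R := by
  obtain ⟨⟨r, hr⟩, ha⟩ := Subgroup.ne_bot_iff_exists_ne_one.1 h
  have hr1 : r ≠ 1 := fun h => ha (Subtype.ext h)
  intro x hx
  obtain ⟨g, k, rfl⟩ := S3_normal_aux r hr1 x hx
  exact mul_mem (hR.conj_mem _ hr _) (hR.conj_mem _ (inv_mem hr) _)

lemma card_S3 : Nat.card S3 = 6 := by
  rw [Nat.card_eq_fintype_card]; decide

lemma S3_proper_nilp (H : Subgroup S3) (h : H ≠ ⊤) : Group.IsNilpotent H := by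
  have h1 : Nat.card H ∣ 6 := by rw [← card_S3]; exact Subgroup.card_subgroup_dvd_card H
  have h2 : Nat.card H ≠ 6 := by
    intro h2
    exact h (Subgroup.eq_top_of_card_eq H (by rw [h2, card_S3]))
  have h3 : Nat.card H ≤ 6 := Nat.le_of_dvd (by norm_num) h1
  have h4 : 0 < Nat.card H := Nat.card_pos
  have h5 : Nat.card H = 1 ∨ Nat.card H = 2 ∨ Nat.card H = 3 := by
    interval_cases hc : Nat.card H <;> simp_all
  rcases h5 with h5 | h5 | h5
  · have : Subsingleton H := (Nat.card_eq_one_iff_unique.1 h5).1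
    infer_instance
  · have : Fact (Nat.Prime 2) := ⟨Nat.prime_two⟩
    exact (IsPGroup.of_card (p := 2) (n := 1) (by rw [h5]; norm_num)).isNilpotent
  · have : Fact (Nat.Prime 3) := ⟨Nat.prime_three⟩
    exact (IsPGroup.of_card (p := 3) (n := 1) (by rw [h5]; norm_num)).isNilpotent

lemma S3_center : ∀ x : S3, (∀ y : S3, y * x = x * y) → x = 1 := by decide +kernel

lemma S3_not_nilp : ¬ Group.IsNilpotent S3 := by
  intro h
  have h1 := Group.IsNilpotent.center_ne_bot (G := S3)
  apply h1
  rw [eq_bot_iff]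
  intro x hx
  rw [Subgroup.mem_center_iff] at hx
  exact S3_center x hx

/-- Groups `Y` with a homomorphism onto `S3` whose kernel is a self-centralising minimal normal
`5`-subgroup. -/
structure BadHom {Y : Type} [Group Y] (ρ : Y →* S3) : Prop where
  surj : Function.Surjective ρ
  pgroup : IsPGroup 5 ρ.ker
  cent : Subgroup.centralizer (ρ.ker : Set Y) ≤ ρ.ker
  min : ∀ R : Subgroup Y, R.Normal → R ≤ ρ.ker → R = ⊥ ∨ R = ρ.ker

/-- No subgroup of `G` has a quotient `Y` as in `BadHom`. -/
def NoSec (G : Type) [Group G] : Prop :=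
  ∀ (U : Subgroup G) (Y : Type) (_ : Group Y) (φ : U →* Y) (ρ : Y →* S3),
    Function.Surjective φ → ¬ BadHom ρ

lemma NoSec.not_badHom {G : Type} [Group G] (hG : NoSec G) {Y : Type} [Group Y] (φ : G →* Y)
    (hφ : Function.Surjective φ) (ρ : Y →* S3) : ¬ BadHom ρ := by
  refine hG ⊤ Y _ (φ.comp (⊤ : Subgroup G).subtype) ρ ?_
  intro y
  obtain ⟨x, rfl⟩ := hφ y
  exact ⟨⟨x, trivial⟩, rfl⟩

lemma NoSec.of_injective {G H : Type} [Group G] [Group H] (f : H →* G)
    (hf : Function.Injective f) (hG : NoSec G) : NoSec H := by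
  intro U Y _ φ ρ hφ
  have e : U ≃* U.map f := U.equivMapOfInjective f hf
  exact hG (U.map f) Y _ (φ.comp e.symm.toMonoidHom) ρ (hφ.comp e.symm.surjective)

lemma NoSec.of_surjective {G Q : Type} [Group G] [Group Q] (f : G →* Q)
    (hf : Function.Surjective f) (hG : NoSec G) : NoSec Q := by
  intro U Y _ φ ρ hφ
  refine hG (U.comap f) Y _ (φ.comp (f.subgroupComap U)) ρ (hφ.comp ?_)
  intro ⟨u, hu⟩
  obtain ⟨x, rfl⟩ := hf u
  exact ⟨⟨x, hu⟩, rfl⟩

lemma NoSec.subgroup {G : Type} [Group G] (hG : NoSec G) (U : Subgroup G) : NoSec U :=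
  hG.of_injective U.subtype U.subtype_injective

/-- A bad quotient of a subgroup cannot factor through a group without bad sections. -/
lemma NoSec.not_factor {G Q : Type} [Group G] [Group Q] (hQ : NoSec Q) (f : G →* Q)
    {Y : Type} [Group Y] (φ : G →* Y) (hφ : Function.Surjective φ) (ρ : Y →* S3)
    (hρ : BadHom ρ) : ∃ u : G, f u = 1 ∧ φ u ≠ 1 := by
  by_contra hcon
  push Not at hcon
  have h1 : NoSec f.range := hQ.subgroup _
  let g : f.range →* Y := f.rangeRestrict.liftOfSurjective f.rangeRestrict_surjective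
    ⟨φ, by
      intro u hu
      rw [MonoidHom.mem_ker] at hu ⊢
      exact hcon u (congrArg Subtype.val hu)⟩
  have hg : ∀ u, g (f.rangeRestrict u) = φ u := fun u =>
    MonoidHom.liftOfRightInverse_comp_apply _ _ _ _ _
  exact h1.not_badHom g (fun y => by
    obtain ⟨u, rfl⟩ := hφ y
    exact ⟨f.rangeRestrict u, hg u⟩) ρ hρ

namespace BadHom

variable {Y : Type} [Group Y] {ρ : Y →* S3}

/-- Every nontrivial normal subgroup contains the kernel. -/
lemma ker_le (h : BadHom ρ) (R : Subgroup Y) (hR : R.Normal) (hne : R ≠ ⊥) : ρ.ker ≤ R := by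
  rcases h.min (R ⊓ ρ.ker) inferInstance inf_le_right with h1 | h1
  · exfalso
    apply hne
    have h2 : R ≤ Subgroup.centralizer (ρ.ker : Set Y) := by
      intro r hr
      rw [Subgroup.mem_centralizer_iff]
      intro k hk
      have h3 : r * k * r⁻¹ * k⁻¹ ∈ R ⊓ ρ.ker := by
        refine ⟨?_, ?_⟩
        · have : r * k * r⁻¹ * k⁻¹ = r * (k * r⁻¹ * k⁻¹) := by group
          rw [this]
          exact mul_mem hr (hR.conj_mem _ (inv_mem hr) _)
        · exact ρ.ker.mul_mem ((inferInstance : ρ.ker.Normal).conj_mem _ hk _)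
            (ρ.ker.inv_mem hk)
      rw [h1, Subgroup.mem_bot] at h3
      rw [mul_inv_eq_one, mul_inv_eq_iff_eq_mul] at h3
      exact h3.symm
    have h4 : R ≤ ρ.ker := h2.trans h.cent
    rw [inf_eq_left.2 h4] at h1
    exact h1
  · rw [← h1]; exact inf_le_left

lemma ker_ne_bot (h : BadHom ρ) : ρ.ker ≠ ⊥ := by
  intro h1
  have h2 := h.cent
  rw [h1] at h2
  have h3 : (Subgroup.centralizer ((⊥ : Subgroup Y) : Set Y)) = ⊤ := by
    rw [eq_top_iff]
    intro x _
    rw [Subgroup.mem_centralizer_iff]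
    intro y hy
    rw [SetLike.mem_coe, Subgroup.mem_bot] at hy
    rw [hy, one_mul, mul_one]
  rw [h3, top_le_iff] at h2
  have h4 : ∀ y : Y, y = 1 := fun y => by
    have : y ∈ (⊤ : Subgroup Y) := trivial
    rw [← h2] at this
    exact this
  obtain ⟨y, hy⟩ := h.surj (Equiv.swap 0 1)
  rw [h4 y, map_one] at hy
  exact absurd hy (by decide)

end BadHom

lemma comm_minimal {G : Type} [Group G] (X K : Subgroup G) (hX : X.Normal) (hK : K.Normal)
    (hXK : X ≤ K) (hn : Group.IsNilpotent K)
    (hmin : ∀ R : Subgroup G, R.Normal → R ≤ X → R = ⊥ ∨ R = X) :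
    K ≤ Subgroup.centralizer (X : Set G) := by
  have h1 : ⁅X, K⁆ = ⊥ := by
    rcases hmin ⁅X, K⁆ inferInstance (Subgroup.commutator_le_left X K) with h | h
    · exact h
    · obtain ⟨n, hn⟩ := (Subgroup.isNilpotent_iff_lowerCentralSeries K).1 hn
      have h2 : ∀ n, X ≤ K.lowerCentralSeries n := by
        intro n
        induction n with
        | zero => exact hXK
        | succ n ih =>
          rw [Subgroup.lowerCentralSeries_succ]
          calc X = ⁅X, K⁆ := h.symm
            _ ≤ _ := Subgroup.commutator_mono ih le_rfl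
      have h3 := h2 n
      rw [hn, le_bot_iff] at h3
      rw [h, h3]
  rw [Subgroup.commutator_comm] at h1
  exact Subgroup.commutator_eq_bot_iff_le_centralizer.1 h1

lemma exists_minimal_normal {G : Type} [Group G] [Finite G] (N : Subgroup G) (hN : N.Normal)
    (hne : N ≠ ⊥) : ∃ X : Subgroup G, X.Normal ∧ X ≤ N ∧ X ≠ ⊥ ∧
      ∀ R : Subgroup G, R.Normal → R ≤ X → R = ⊥ ∨ R = X := by
  obtain ⟨X, hX⟩ := (Set.toFinite {X : Subgroup G | X.Normal ∧ X ≤ N ∧ X ≠ ⊥}).exists_minimal
    ⟨N, hN, le_rfl, hne⟩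
  refine ⟨X, hX.1.1, hX.1.2.1, hX.1.2.2, fun R hR hRX => ?_⟩
  by_cases h : R = ⊥
  · exact Or.inl h
  · exact Or.inr (le_antisymm hRX (hX.2 ⟨hR, hRX.trans hX.1.2.1, h⟩ hRX))

lemma ptwo_le_ker {G : Type} [Group G] (τ : G →* S3) (P : Subgroup G) (hP : IsPGroup 5 P) :
    P ≤ τ.ker := by
  intro x hx
  obtain ⟨k, hk⟩ := hP ⟨x, hx⟩
  have h1 : x ^ (5 ^ k) = 1 := congrArg Subtype.val hk
  have h2 : (τ x) ^ (5 ^ k) = 1 := by rw [← map_pow, h1, map_one]
  have h3 : (τ x) ^ 6 = 1 := by
    rw [← card_S3]; exact pow_card_eq_one'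
  rw [MonoidHom.mem_ker, ← orderOf_eq_one_iff]
  have h4 := orderOf_dvd_of_pow_eq_one h2
  have h5 := orderOf_dvd_of_pow_eq_one h3
  have h6 : Nat.Coprime (5 ^ k) 6 := Nat.Coprime.pow_left k (by norm_num)
  exact Nat.eq_one_of_dvd_coprimes h6 h4 h5

lemma sylow_normal_of_le {G : Type} [Group G] [Finite G] {p : ℕ} [Fact p.Prime] (P : Sylow p G)
    (K : Subgroup G) (hK : K.Normal) (hn : Group.IsNilpotent K) (hPK : (P : Subgroup G) ≤ K) :
    (P : Subgroup G).Normal := by
  have h1 : ((P.subtype hPK : Sylow p K) : Subgroup K).Normal := inferInstance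
  have h2 := (P.subtype hPK).characteristic_of_normal h1
  have h3 : (((P.subtype hPK : Sylow p K) : Subgroup K).map K.subtype).Normal := inferInstance
  have h4 : ((P.subtype hPK : Sylow p K) : Subgroup K).map K.subtype = (P : Subgroup G) := by
    rw [Sylow.coe_subtype, Subgroup.subgroupOf_map_subtype, inf_eq_left.2 hPK]
  rwa [h4] at h3

lemma mem_of_pelement {G : Type} [Group G] {p : ℕ} [Fact p.Prime] (P : Sylow p G)
    (hn : (P : Subgroup G).Normal) {x : G} {k : ℕ} (hx : x ^ (p ^ k) = 1) :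
    x ∈ (P : Subgroup G) := by
  have h1 : IsPGroup p (Subgroup.zpowers x) := by
    rintro ⟨y, hy⟩
    obtain ⟨m, rfl⟩ := hy
    refine ⟨k, Subtype.ext ?_⟩
    show (x ^ m) ^ (p ^ k) = 1
    rw [← zpow_natCast, ← zpow_mul, mul_comm, zpow_mul, zpow_natCast, hx, one_zpow]
  have h2 := P.isPGroup'.to_sup_of_normal_left h1
  have h3 := P.is_maximal' h2 le_sup_left
  have h4 : x ∈ (P : Subgroup G) ⊔ Subgroup.zpowers x :=
    Subgroup.mem_sup_right (Subgroup.mem_zpowers x)
  rwa [h3] at h4

lemma lift_pelement {G Q : Type} [Group G] [Finite G] [Group Q] (f : G →* Q) {p : ℕ}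
    (hp : p.Prime) (x : G) {k : ℕ} (hx : f x ^ (p ^ k) = 1) :
    ∃ e j : ℕ, f (x ^ e) = f x ∧ (x ^ e) ^ (p ^ j) = 1 := by
  have h0 : orderOf x ≠ 0 := (orderOf_pos x).ne'
  obtain ⟨a, b, hb, hab⟩ := Nat.exists_eq_pow_mul_and_not_dvd h0 p hp.ne_one
  have hcop : Nat.Coprime (p ^ k) b :=
    Nat.Coprime.pow_left k ((Nat.Prime.coprime_iff_not_dvd hp).2 hb)
  obtain ⟨e, he1, he2⟩ := Nat.chineseRemainder hcop 1 0
  refine ⟨e, a, ?_, ?_⟩
  · rw [map_pow]
    have h1 : orderOf (f x) ∣ p ^ k := orderOf_dvd_of_pow_eq_one hx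
    have h2 : e ≡ 1 [MOD orderOf (f x)] := he1.of_dvd h1
    calc f x ^ e = f x ^ 1 := pow_eq_pow_iff_modEq.2 h2
      _ = f x := pow_one _
  · rw [← pow_mul]
    apply orderOf_dvd_iff_pow_eq_one.1
    rw [hab, mul_comm e]
    exact Nat.mul_dvd_mul_left _ ((Nat.modEq_zero_iff_dvd).1 he2)

lemma BadHom.not_nilLe {Y : Type} [Group Y] [Finite Y] {ρ : Y →* S3} (h : BadHom ρ) :
    ¬ NilLe 2 Y := by
  rintro ⟨N, hN, h1, h2⟩
  have h3 := nilp_of_nilLe_one h2
  have h4 : N ≤ ρ.ker := by
    by_cases hb : N = ⊥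
    · rw [hb]; exact bot_le
    · have h5 := h.ker_le N hN hb
      exact (comm_minimal ρ.ker N inferInstance hN h5 h1 h.min).trans h.cent
  apply S3_not_nilp
  refine nilp_of_surjective (QuotientGroup.lift N ρ h4) ?_ h3
  intro s
  obtain ⟨y, rfl⟩ := h.surj s
  exact ⟨QuotientGroup.mk y, rfl⟩

section Essential

set_option linter.unusedSectionVars false

variable {M Y : Type} [Group M] [Finite M] [Group Y] (φ : M →* Y) (hφ : Function.Surjective φ)
  (hess : ∀ U : Subgroup M, U.map φ = ⊤ → U = ⊤) (ρ : Y →* S3) (hρ : BadHom ρ)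

include hφ in
lemma ker_map_eq : (ρ.comp φ).ker.map φ = ρ.ker := by
  rw [← MonoidHom.comap_ker, Subgroup.map_comap_eq_self_of_surjective hφ]

include hφ hess hρ

lemma ess_ker_nilp : Group.IsNilpotent (ρ.comp φ).ker := by
  have : Finite Y := Finite.of_surjective φ hφ
  refine frattini_nilp φ hφ hess _ inferInstance ?_
  rw [ker_map_eq φ hφ ρ]
  have : Fact (Nat.Prime 5) := ⟨by norm_num⟩
  exact hρ.pgroup.isNilpotent

lemma ess_sylow_normal [Fact (Nat.Prime 5)] (S : Sylow 5 M) : (S : Subgroup M).Normal :=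
  sylow_normal_of_le S (ρ.comp φ).ker inferInstance (ess_ker_nilp φ hφ hess ρ hρ)
    (ptwo_le_ker _ _ S.isPGroup')

omit hess in
lemma lift_ker [Fact (Nat.Prime 5)] (S : Sylow 5 M) (hS : (S : Subgroup M).Normal)
    (R : Subgroup M) (h : ρ.ker ≤ R.map φ) : ρ.ker ≤ (R ⊓ (S : Subgroup M)).map φ := by
  intro n hn
  obtain ⟨m, hm, rfl⟩ := h hn
  obtain ⟨k, hk⟩ := hρ.pgroup ⟨φ m, hn⟩
  have hk' : (φ m) ^ (5 ^ k) = 1 := congrArg Subtype.val hk
  obtain ⟨e, j, h1, h2⟩ := lift_pelement φ (by norm_num) m hk'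
  exact ⟨m ^ e, ⟨pow_mem hm e, mem_of_pelement S hS h2⟩, h1⟩

/-- A normal subgroup whose image contains the kernel contains the Sylow subgroup. -/
lemma ess_sylow_le [Fact (Nat.Prime 5)] (S : Sylow 5 M) (R : Subgroup M) (hR : R.Normal)
    (h : ρ.ker ≤ R.map φ) : (S : Subgroup M) ≤ R := by
  have hS := ess_sylow_normal φ hφ hess ρ hρ S
  have hcop : (Nat.card (S : Subgroup M)).Coprime (S : Subgroup M).index := by
    obtain ⟨n, hn⟩ := IsPGroup.iff_card.1 S.isPGroup'
    rw [hn]
    exact Nat.Coprime.pow_left n ((Nat.Prime.coprime_iff_not_dvd (by norm_num)).2 S.not_dvd_index)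
  obtain ⟨T, hT⟩ := Subgroup.exists_right_complement'_of_coprime hcop
  have h1 : ((R ⊓ (S : Subgroup M)) ⊔ T).map φ = ⊤ := by
    rw [eq_top_iff]
    have h2 : ((S : Subgroup M) ⊔ T).map φ = ⊤ := by
      rw [hT.sup_eq_top]; exact Subgroup.map_top_of_surjective φ hφ
    rw [← h2, Subgroup.map_sup, Subgroup.map_sup]
    apply sup_le_sup_right
    have h3 : (S : Subgroup M).map φ ≤ ρ.ker := by
      rw [Subgroup.map_le_iff_le_comap, MonoidHom.comap_ker]
      exact ptwo_le_ker _ _ S.isPGroup'
    exact h3.trans (lift_ker φ hφ ρ hρ S hS R h)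
  have h4 := hess _ h1
  intro s hs
  have h5 : s ∈ (R ⊓ (S : Subgroup M)) ⊔ T := by rw [h4]; trivial
  rw [Subgroup.mem_sup_of_normal_left] at h5
  obtain ⟨r, hr, t, ht, rfl⟩ := h5
  have h6 : t ∈ (S : Subgroup M) ⊓ T := by
    refine ⟨?_, ht⟩
    have := (S : Subgroup M).mul_mem ((S : Subgroup M).inv_mem hr.2) hs
    rwa [inv_mul_cancel_left] at this
  rw [hT.disjoint.eq_bot, Subgroup.mem_bot] at h6
  rw [h6, mul_one]
  exact hr.1

end Essential

/-- Direct products (subdirect products) of groups without bad sections have none. -/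
lemma noSec_subdirect : ∀ (n : ℕ) (G : Type) [Group G] [Finite G], Nat.card G = n →
    ∀ (Q₁ Q₂ : Type) [Group Q₁] [Group Q₂] (f₁ : G →* Q₁) (f₂ : G →* Q₂),
    f₁.ker ⊓ f₂.ker = ⊥ → NoSec Q₁ → NoSec Q₂ →
    ∀ (Y : Type) [Group Y] (φ : G →* Y) (ρ : Y →* S3), Function.Surjective φ → ¬ BadHom ρ := by
  intro n
  induction n using Nat.strong_induction_on with
  | _ n ih =>
    intro G _ _ hn Q₁ Q₂ _ _ f₁ f₂ hf h1 h2 Y _ φ ρ hφ hρ
    have : Fact (Nat.Prime 5) := ⟨by norm_num⟩
    have hess : ∀ U : Subgroup G, U.map φ = ⊤ → U = ⊤ := by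
      intro U hU
      by_contra hne
      have hlt : Nat.card U < n := by
        rw [← hn]
        refine lt_of_le_of_ne (Subgroup.card_le_card_group U) ?_
        intro heq
        exact hne (Subgroup.eq_top_of_card_eq U heq)
      refine ih _ hlt U rfl Q₁ Q₂ (f₁.comp U.subtype) (f₂.comp U.subtype) ?_ h1 h2 Y
        (φ.comp U.subtype) ρ ?_ hρ
      · rw [eq_bot_iff]
        intro x hx
        have h3 : (x : G) ∈ f₁.ker ⊓ f₂.ker := hx
        rw [hf, Subgroup.mem_bot] at h3
        exact Subtype.ext h3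
      · intro y
        have : y ∈ U.map φ := by rw [hU]; trivial
        obtain ⟨x, hx, rfl⟩ := this
        exact ⟨⟨x, hx⟩, rfl⟩
    let S : Sylow 5 G := default
    have key : ∀ (Q : Type) [Group Q] (f : G →* Q), NoSec Q → (S : Subgroup G) ≤ f.ker := by
      intro Q _ f hQ
      apply ess_sylow_le φ hφ hess ρ hρ S f.ker inferInstance
      apply hρ.ker_le
      · exact (inferInstance : f.ker.Normal).map φ hφ
      · obtain ⟨u, hu1, hu2⟩ := hQ.not_factor f φ hφ ρ hρ
        intro hbot
        apply hu2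
        have : φ u ∈ f.ker.map φ := ⟨u, hu1, rfl⟩
        rwa [hbot, Subgroup.mem_bot] at this
    have h3 : (S : Subgroup G) = ⊥ := by
      rw [eq_bot_iff, ← hf]
      exact le_inf (key Q₁ f₁ h1) (key Q₂ f₂ h2)
    have h4 := lift_ker φ hφ ρ hρ S (ess_sylow_normal φ hφ hess ρ hρ S) ⊤ (by
      rw [Subgroup.map_top_of_surjective φ hφ]; exact le_top)
    rw [h3, inf_bot_eq, Subgroup.map_bot, le_bot_iff] at h4
    exact hρ.ker_ne_bot h4

lemma NoSec.subdirect {G Q₁ Q₂ : Type} [Group G] [Finite G] [Group Q₁] [Group Q₂] (f₁ : G →* Q₁)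
    (f₂ : G →* Q₂) (hf : f₁.ker ⊓ f₂.ker = ⊥) (h1 : NoSec Q₁) (h2 : NoSec Q₂) : NoSec G := by
  intro U Y _ φ ρ hφ
  refine noSec_subdirect _ U rfl Q₁ Q₂ (f₁.comp U.subtype) (f₂.comp U.subtype) ?_ h1 h2 Y φ ρ hφ
  rw [eq_bot_iff]
  intro x hx
  have h3 : (x : G) ∈ f₁.ker ⊓ f₂.ker := hx
  rw [hf, Subgroup.mem_bot] at h3
  exact Subtype.ext h3

/-- Extensions with a `q`-group kernel, `q ≠ 5`. -/
lemma NoSec.of_pker {G Q : Type} [Group G] [Finite G] [Group Q] (f : G →* Q) {q : ℕ}
    (hq : q.Prime) (hq5 : q ≠ 5) (hker : IsPGroup q f.ker) (hQ : NoSec Q) : NoSec G := by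
  intro U Y _ φ ρ hφ hρ
  obtain ⟨u, hu1, hu2⟩ := hQ.not_factor (f.comp U.subtype) φ hφ ρ hρ
  have hN : ((f.comp U.subtype).ker.map φ).Normal :=
    (inferInstance : (f.comp U.subtype).ker.Normal).map φ hφ
  have hne : (f.comp U.subtype).ker.map φ ≠ ⊥ := by
    intro hbot
    apply hu2
    have : φ u ∈ (f.comp U.subtype).ker.map φ := ⟨u, hu1, rfl⟩
    rwa [hbot, Subgroup.mem_bot] at this
  have h1 := hρ.ker_le _ hN hne
  apply hρ.ker_ne_bot
  rw [eq_bot_iff]
  intro y hy
  rw [Subgroup.mem_bot]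
  obtain ⟨x, hx, rfl⟩ := h1 hy
  obtain ⟨k, hk⟩ := hρ.pgroup ⟨φ x, hy⟩
  have hk' : (φ x) ^ (5 ^ k) = 1 := congrArg Subtype.val hk
  obtain ⟨j, hj⟩ := hker ⟨(x : G), hx⟩
  have hj0 : (x : G) ^ (q ^ j) = 1 := congrArg Subtype.val hj
  have hj' : x ^ (q ^ j) = 1 := Subtype.ext hj0
  have hj'' : (φ x) ^ (q ^ j) = 1 := by rw [← map_pow, hj', map_one]
  rw [← orderOf_eq_one_iff]
  have hcop : Nat.Coprime (5 ^ k) (q ^ j) :=
    Nat.Coprime.pow _ _ ((Nat.coprime_primes (by norm_num) hq).2 hq5.symm)
  exact Nat.eq_one_of_dvd_coprimes hcop (orderOf_dvd_of_pow_eq_one hk')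
    (orderOf_dvd_of_pow_eq_one hj'')

/-- A relative version of `BadHom`. -/
lemma BadHom.of_rel {U : Type} [Group U] (ρ : U →* S3) (V : Subgroup U) [V.Normal]
    (hsurj : Function.Surjective ρ) (hV : V ≤ ρ.ker)
    (hp : ∀ x ∈ ρ.ker, ∃ k : ℕ, x ^ (5 ^ k) ∈ V)
    (hcent : ∀ u, (∀ x ∈ ρ.ker, u * x * u⁻¹ * x⁻¹ ∈ V) → u ∈ ρ.ker)
    (hmin : ∀ R : Subgroup U, R.Normal → V ≤ R → R ≤ ρ.ker → R = V ∨ R = ρ.ker) :
    BadHom (QuotientGroup.lift V ρ hV) where
  surj := by
    intro s
    obtain ⟨u, rfl⟩ := hsurj s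
    exact ⟨QuotientGroup.mk u, rfl⟩
  pgroup := by
    rintro ⟨y, hy⟩
    obtain ⟨u, rfl⟩ := QuotientGroup.mk'_surjective V y
    obtain ⟨k, hk⟩ := hp u hy
    refine ⟨k, Subtype.ext ?_⟩
    exact (QuotientGroup.eq_one_iff (u ^ (5 ^ k))).2 hk
  cent := by
    intro y hy
    obtain ⟨u, rfl⟩ := QuotientGroup.mk'_surjective V y
    apply hcent u
    intro x hx
    rw [Subgroup.mem_centralizer_iff] at hy
    have h1 := hy (QuotientGroup.mk' V x) hx
    rw [← QuotientGroup.eq_one_iff]
    change QuotientGroup.mk' V u * QuotientGroup.mk' V x * (QuotientGroup.mk' V u)⁻¹ *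
      (QuotientGroup.mk' V x)⁻¹ = 1
    rw [← h1]
    group
  min := by
    intro R hR hle
    have h1 : R.comap (QuotientGroup.mk' V) = V ∨ R.comap (QuotientGroup.mk' V) = ρ.ker := by
      apply hmin _ (hR.comap _)
      · intro v hv
        rw [Subgroup.mem_comap]
        have : QuotientGroup.mk' V v = 1 := (QuotientGroup.eq_one_iff v).2 hv
        rw [this]; exact one_mem _
      · intro u hu
        exact hle hu
    have h2 : R = (R.comap (QuotientGroup.mk' V)).map (QuotientGroup.mk' V) :=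
      (Subgroup.map_comap_eq_self_of_surjective (QuotientGroup.mk'_surjective V) R).symm
    rcases h1 with h1 | h1
    · left
      rw [h2, h1, eq_bot_iff]
      rintro _ ⟨v, hv, rfl⟩
      exact (QuotientGroup.eq_one_iff v).2 hv
    · right
      rw [h2, h1]
      apply le_antisymm
      · rintro _ ⟨v, hv, rfl⟩
        exact hv
      · intro y hy
        obtain ⟨u, rfl⟩ := QuotientGroup.mk'_surjective V y
        exact ⟨u, hy, rfl⟩

/-- A faithful minimal normal `5`-subgroup leads to a bad section. -/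
lemma bad_of_self_centralizing {U : Type} [Group U] [Finite U] (τ : U →* S3) (S X : Subgroup U)
    [hSn : S.Normal] [hXn : X.Normal] (hτ : Function.Surjective τ) (hS : IsPGroup 5 S)
    (hidx : ¬ 5 ∣ S.index) (hXS : X ≤ S)
    (hmin : ∀ R : Subgroup U, R.Normal → R ≤ X → R = ⊥ ∨ R = X)
    (hKC : τ.ker ≤ Subgroup.centralizer (X : Set U))
    (hCK : Subgroup.centralizer (X : Set U) ≤ τ.ker) : ¬ NoSec U := by
  intro hno
  have h5 : Fact (Nat.Prime 5) := ⟨by norm_num⟩
  have hcop : (Nat.card S).Coprime S.index := by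
    obtain ⟨n, hn⟩ := IsPGroup.iff_card.1 hS
    rw [hn]
    exact Nat.Coprime.pow_left n ((Nat.Prime.coprime_iff_not_dvd (by norm_num)).2 hidx)
  obtain ⟨T, hT⟩ := Subgroup.exists_right_complement'_of_coprime hcop
  have hST : S ⊔ T = ⊤ := hT.sup_eq_top
  have hSTd : S ⊓ T = ⊥ := hT.disjoint.eq_bot
  have hSK : S ≤ τ.ker := ptwo_le_ker τ S hS
  -- elements of X commute with elements of the kernel
  have hcomm : ∀ x ∈ X, ∀ k ∈ τ.ker, x * k = k * x := by
    intro x hx k hk
    exact (Subgroup.mem_centralizer_iff.1 (hKC hk)) x hx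
  set U1 : Subgroup U := X ⊔ T with hU1
  set ρ : U1 →* S3 := τ.comp U1.subtype with hρ
  set V : Subgroup U1 := (T ⊓ τ.ker).subgroupOf U1 with hV
  have hnorm : U1 ≤ Subgroup.normalizer ((T ⊓ τ.ker : Subgroup U) : Set U) := by
    apply sup_le
    · intro x hx
      rw [Subgroup.mem_normalizer_iff]
      intro v
      constructor
      · intro hv
        have : x * v * x⁻¹ = v := by rw [hcomm x hx v hv.2]; group
        rw [this]; exact hv
      · intro hv
        have h1 : x * (x * v * x⁻¹) * x⁻¹ = x * v * x⁻¹ := by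
          rw [hcomm x hx _ hv.2]; group
        have h2 : x * v * x⁻¹ = v := by
          have := congrArg (fun z => x⁻¹ * z * x) h1
          simpa [mul_assoc] using this
        rw [← h2]; exact hv
    · intro t ht
      rw [Subgroup.mem_normalizer_iff]
      intro v
      have h1 : t * v * t⁻¹ ∈ T ↔ v ∈ T := by
        constructor
        · intro h
          have := T.mul_mem (T.mul_mem (T.inv_mem ht) h) ht
          simpa [mul_assoc] using this
        · intro h
          exact T.mul_mem (T.mul_mem ht h) (T.inv_mem ht)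
      have h2 : t * v * t⁻¹ ∈ τ.ker ↔ v ∈ τ.ker := by
        rw [MonoidHom.mem_ker, MonoidHom.mem_ker, map_mul, map_mul, map_inv]
        constructor
        · intro h
          rwa [mul_inv_eq_one, mul_eq_left] at h
        · intro h
          rw [h, mul_one, mul_inv_cancel]
      rw [Subgroup.mem_inf, Subgroup.mem_inf, h1, h2]
  have hVn : V.Normal := Subgroup.normal_subgroupOf_of_le_normalizer hnorm
  have hdec : ∀ u ∈ U1, ∃ x ∈ X, ∃ t ∈ T, x * t = u := by
    intro u hu
    exact Subgroup.mem_sup_of_normal_left.1 hu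
  have hdeck : ∀ u : U1, u ∈ ρ.ker → ∃ x ∈ X, ∃ t ∈ T ⊓ τ.ker, x * t = u := by
    intro u hu
    obtain ⟨x, hx, t, ht, hxt⟩ := hdec u u.2
    have hu' : τ (u : U) = 1 := hu
    have hx' : τ x = 1 := hSK (hXS hx)
    refine ⟨x, hx, t, ⟨ht, ?_⟩, hxt⟩
    show τ t = 1
    rw [← hxt, map_mul, hx', one_mul] at hu'
    exact hu'
  have hVle : V ≤ ρ.ker := by
    intro v hv
    exact (Subgroup.mem_subgroupOf.1 hv).2
  have hXU1 : X ≤ U1 := le_sup_left
  refine (hno.subgroup U1).not_badHom (QuotientGroup.mk' V) (QuotientGroup.mk'_surjective V)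
    (QuotientGroup.lift V ρ hVle) ?_
  apply BadHom.of_rel
  · -- surjective
    intro s
    obtain ⟨u, rfl⟩ := hτ s
    have hu : u ∈ S ⊔ T := by rw [hST]; trivial
    obtain ⟨y, hy, t, ht, rfl⟩ := Subgroup.mem_sup_of_normal_left.1 hu
    refine ⟨⟨t, (le_sup_right : T ≤ U1) ht⟩, ?_⟩
    show τ t = τ (y * t)
    have : τ y = 1 := hSK hy
    rw [map_mul, this, one_mul]
  · intro u hu
    obtain ⟨x, hx, t, ht, hxt⟩ := hdeck u hu
    obtain ⟨k, hk⟩ := hS ⟨x, hXS hx⟩
    have hk' : x ^ (5 ^ k) = 1 := congrArg Subtype.val hk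
    refine ⟨k, ?_⟩
    rw [Subgroup.mem_subgroupOf]
    show (u : U) ^ (5 ^ k) ∈ T ⊓ τ.ker
    rw [← hxt, (show Commute x t from hcomm x hx t ht.2).mul_pow, hk', one_mul]
    exact pow_mem ht _
  · intro u hu
    show (u : U) ∈ τ.ker
    apply hCK
    rw [Subgroup.mem_centralizer_iff]
    intro x hx
    have h1 := hu ⟨x, hXU1 hx⟩ (hSK (hXS hx))
    rw [Subgroup.mem_subgroupOf] at h1
    change (u : U) * x * (u : U)⁻¹ * x⁻¹ ∈ T ⊓ τ.ker at h1
    have h2 : (u : U) * x * (u : U)⁻¹ * x⁻¹ ∈ S ⊓ T :=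
      ⟨hXS (X.mul_mem (hXn.conj_mem x hx u) (X.inv_mem hx)), h1.1⟩
    rw [hSTd, Subgroup.mem_bot, mul_inv_eq_one, mul_inv_eq_iff_eq_mul] at h2
    exact h2.symm
  · intro R hR hVR hRk
    -- the intersection with `X`
    have hR' : ((R.map U1.subtype) ⊓ X).Normal := by
      rw [← Subgroup.normalizer_eq_top_iff, eq_top_iff, ← hST]
      have hXnorm : ∀ g : U, ∀ x : U, g * x * g⁻¹ ∈ X ↔ x ∈ X := by
        intro g x
        constructor
        · intro h
          have := hXn.conj_mem _ h g⁻¹
          simpa [mul_assoc] using this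
        · intro h; exact hXn.conj_mem _ h g
      apply sup_le
      · intro s hs
        rw [Subgroup.mem_normalizer_iff]
        intro x
        constructor
        · intro hx
          have : s * x * s⁻¹ = x := by rw [← hcomm x hx.2 s (hSK hs)]; group
          rw [this]; exact hx
        · intro hx
          have hxX : x ∈ X := (hXnorm s x).1 hx.2
          have : s * x * s⁻¹ = x := by rw [← hcomm x hxX s (hSK hs)]; group
          rwa [this] at hx
      · intro t ht
        have htU : t ∈ U1 := (le_sup_right : T ≤ U1) ht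
        rw [Subgroup.mem_normalizer_iff]
        intro x
        rw [Subgroup.mem_inf, Subgroup.mem_inf, hXnorm]
        constructor
        · rintro ⟨⟨r, hr, hrx⟩, hx⟩
          refine ⟨⟨⟨t, htU⟩ * r * ⟨t, htU⟩⁻¹, hR.conj_mem r hr _, ?_⟩, hx⟩
          rw [← hrx]; rfl
        · rintro ⟨⟨r, hr, hrx⟩, hx⟩
          refine ⟨⟨⟨t, htU⟩⁻¹ * r * ⟨t, htU⟩, ?_, ?_⟩, hx⟩
          · have := hR.conj_mem r hr (⟨t, htU⟩⁻¹)
            rwa [inv_inv] at this
          · change t⁻¹ * (U1.subtype r) * t = x
            rw [hrx]; group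
    rcases hmin _ hR' inf_le_right with h1 | h1
    · left
      apply le_antisymm _ hVR
      intro r hr
      obtain ⟨x, hx, t, ht, hxt⟩ := hdeck r (hRk hr)
      have htU : t ∈ U1 := (le_sup_right : T ≤ U1) ht.1
      have htV : (⟨t, htU⟩ : U1) ∈ V := ht
      have hx1 : x ∈ (R.map U1.subtype) ⊓ X := by
        refine ⟨⟨r * ⟨t, htU⟩⁻¹, R.mul_mem hr (R.inv_mem (hVR htV)), ?_⟩, hx⟩
        change (r : U) * t⁻¹ = x
        rw [← hxt]; group
      rw [h1, Subgroup.mem_bot] at hx1
      rw [hx1, one_mul] at hxt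
      have : r = ⟨t, htU⟩ := Subtype.ext hxt.symm
      rw [this]; exact htV
    · right
      apply le_antisymm hRk
      intro r hr
      obtain ⟨x, hx, t, ht, hxt⟩ := hdeck r hr
      have htU : t ∈ U1 := (le_sup_right : T ≤ U1) ht.1
      have htV : (⟨t, htU⟩ : U1) ∈ V := ht
      rw [← h1] at hx
      obtain ⟨y, hy, hyx⟩ := hx.1
      have : r = y * ⟨t, htU⟩ := by
        apply Subtype.ext
        rw [← hxt, ← hyx]; rfl
      rw [this]
      exact R.mul_mem hy (hVR htV)

/-- The sign homomorphism on `S3`. -/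
abbrev sgn : S3 →* ℤˣ := Equiv.Perm.sign

lemma ind_aux (n : ℕ) : ∀ (U : Type) [Group U] [Finite U], Nat.card U = n →
    ∀ (τ : U →* S3) (S : Subgroup U) [S.Normal], Function.Surjective τ →
    Group.IsNilpotent τ.ker → IsPGroup 5 S → ¬ 5 ∣ S.index →
    Group.IsNilpotent ((sgn.comp τ).ker.map (QuotientGroup.mk' S)) → NoSec U →
    Group.IsNilpotent (sgn.comp τ).ker := by
  induction n using Nat.strong_induction_on with
  | _ n ih =>
    intro U _ _ hn τ S hSn hτ hnil hS hidx hD hno
    by_cases hSb : S = ⊥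
    · refine nilp_of_injective ((QuotientGroup.mk' S).subgroupMap (sgn.comp τ).ker) ?_ hD
      intro x y hxy
      have h1 : QuotientGroup.mk' S (x : U) = QuotientGroup.mk' S (y : U) :=
        congrArg Subtype.val hxy
      rw [QuotientGroup.mk'_eq_mk'] at h1
      obtain ⟨z, hz, hxz⟩ := h1
      rw [hSb, Subgroup.mem_bot] at hz
      rw [hz, mul_one] at hxz
      exact Subtype.ext hxz
    · obtain ⟨X, hXn, hXS, hXne, hmin⟩ := exists_minimal_normal S hSn hSb
      have hSK : S ≤ τ.ker := ptwo_le_ker τ S hS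
      have hKC : τ.ker ≤ Subgroup.centralizer (X : Set U) :=
        comm_minimal X τ.ker hXn inferInstance (hXS.trans hSK) hnil hmin
      have hCn : (Subgroup.centralizer (X : Set U)).Normal := inferInstance
      have hDC : (sgn.comp τ).ker ≤ Subgroup.centralizer (X : Set U) := by
        by_cases hC : (Subgroup.centralizer (X : Set U)).map τ = ⊥
        · exfalso
          refine bad_of_self_centralizing τ S X hτ hS hidx hXS hmin hKC ?_ hno
          exact (Subgroup.map_eq_bot_iff _).1 hC
        · have h1 := S3_normal _ (hCn.map τ hτ) hC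
          intro d hd
          obtain ⟨c, hc, hcd⟩ := h1 (show τ d ∈ sgn.ker from hd)
          have h2 : c⁻¹ * d ∈ τ.ker := by
            rw [MonoidHom.mem_ker, map_mul, map_inv, hcd, inv_mul_cancel]
          have h3 := mul_mem hc (hKC h2)
          rwa [mul_inv_cancel_left] at h3
      have hXK : X ≤ τ.ker := hXS.trans hSK
      set τ' : U ⧸ X →* S3 := QuotientGroup.lift X τ hXK with hτ'
      have hcard : Nat.card (U ⧸ X) < n := by
        rw [← hn, Subgroup.card_eq_card_quotient_mul_card_subgroup X]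
        apply lt_mul_of_one_lt_right Nat.card_pos
        exact (Subgroup.one_lt_card_iff_ne_bot X).2 hXne
      have hDmap : (sgn.comp τ').ker = (sgn.comp τ).ker.map (QuotientGroup.mk' X) := by
        ext y
        obtain ⟨u, rfl⟩ := QuotientGroup.mk'_surjective X y
        constructor
        · intro h; exact ⟨u, h, rfl⟩
        · rintro ⟨v, hv, hvu⟩
          rw [← hvu]; exact hv
      have hSm : (S.map (QuotientGroup.mk' X)).Normal :=
        hSn.map _ (QuotientGroup.mk'_surjective X)
      have h1 : Group.IsNilpotent (sgn.comp τ').ker := by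
        refine ih _ hcard (U ⧸ X) rfl τ' (S.map (QuotientGroup.mk' X)) ?_ ?_ (hS.map _) ?_ ?_
          (hno.of_surjective _ (QuotientGroup.mk'_surjective X))
        · intro s
          obtain ⟨u, rfl⟩ := hτ s
          exact ⟨QuotientGroup.mk u, rfl⟩
        · have h2 : τ'.ker ≤ τ.ker.map (QuotientGroup.mk' X) := by
            intro y hy
            obtain ⟨u, rfl⟩ := QuotientGroup.mk'_surjective X y
            exact ⟨u, hy, rfl⟩
          exact nilp_of_le h2 (nilp_map _ hnil)
        · intro h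
          exact hidx (h.trans (Subgroup.index_map_dvd S (QuotientGroup.mk'_surjective X)))
        · let g : U ⧸ S →* (U ⧸ X) ⧸ (S.map (QuotientGroup.mk' X)) :=
            QuotientGroup.lift S ((QuotientGroup.mk' (S.map (QuotientGroup.mk' X))).comp
              (QuotientGroup.mk' X)) (by
                intro s hs
                rw [MonoidHom.mem_ker, MonoidHom.comp_apply, QuotientGroup.mk'_apply,
                  QuotientGroup.eq_one_iff]
                exact ⟨s, hs, rfl⟩)
          have h3 : (sgn.comp τ').ker.map (QuotientGroup.mk' (S.map (QuotientGroup.mk' X))) =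
              ((sgn.comp τ).ker.map (QuotientGroup.mk' S)).map g := by
            rw [hDmap, Subgroup.map_map, Subgroup.map_map]
            rfl
          rw [h3]
          exact nilp_map _ hD
      -- central extension
      set f : (sgn.comp τ).ker →* U ⧸ X := (QuotientGroup.mk' X).comp (sgn.comp τ).ker.subtype
        with hf
      have h4 : Group.IsNilpotent f.range := by
        refine nilp_of_le ?_ h1
        rintro _ ⟨d, rfl⟩
        rw [hDmap]
        exact ⟨d, d.2, rfl⟩
      refine Subgroup.isNilpotent_of_ker_le_center f.rangeRestrict ?_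
      intro d hd
      rw [MonoidHom.ker_rangeRestrict] at hd
      have hdX : (d : U) ∈ X := (QuotientGroup.eq_one_iff (d : U)).1 hd
      rw [Subgroup.mem_center_iff]
      intro e
      apply Subtype.ext
      exact ((Subgroup.mem_centralizer_iff.1 (hDC e.2)) d hdX).symm

lemma subgroupMap_injective {G H : Type} [Group G] [Group H] (f : G →* H)
    (hf : Function.Injective f) (A : Subgroup G) : Function.Injective (f.subgroupMap A) := by
  intro x y h
  exact Subtype.ext (hf (congrArg Subtype.val h))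

lemma sgn_ker_nilp : Group.IsNilpotent sgn.ker := by
  apply S3_proper_nilp
  intro h
  have h1 : (Equiv.swap 0 1 : S3) ∈ sgn.ker := by rw [h]; trivial
  rw [MonoidHom.mem_ker] at h1
  exact absurd h1 (by decide)

section Essential

set_option linter.unusedSectionVars false

variable {M Y : Type} [Group M] [Finite M] [Group Y] (φ : M →* Y) (hφ : Function.Surjective φ)
  (hess : ∀ U : Subgroup M, U.map φ = ⊤ → U = ⊤) (ρ : Y →* S3) (hρ : BadHom ρ)

include hφ hess hρ

/-- The quotient by the normal Sylow `5`-subgroup: the part over the alternating group. -/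
lemma ess_quot_aux [Fact (Nat.Prime 5)] (S : Sylow 5 M) [hS : (S : Subgroup M).Normal]
    (hle : (S : Subgroup M) ≤ (ρ.comp φ).ker) :
    Group.IsNilpotent (sgn.comp (QuotientGroup.lift (S : Subgroup M) (ρ.comp φ) hle)).ker := by
  set τ' := QuotientGroup.lift (S : Subgroup M) (ρ.comp φ) hle with hτ'
  have hsurj : Function.Surjective τ' := by
    intro s
    obtain ⟨y, rfl⟩ := hρ.surj s
    obtain ⟨m, rfl⟩ := hφ y
    exact ⟨QuotientGroup.mk m, rfl⟩
  have hess' : ∀ U : Subgroup (M ⧸ (S : Subgroup M)), U.map τ' = ⊤ → U = ⊤ := by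
    intro U hU
    set U' : Subgroup M := U.comap (QuotientGroup.mk' (S : Subgroup M)) with hU'
    have hSU : (S : Subgroup M) ≤ U' := by
      intro s hs
      rw [hU', Subgroup.mem_comap]
      have : QuotientGroup.mk' (S : Subgroup M) s = 1 := (QuotientGroup.eq_one_iff s).2 hs
      rw [this]; exact one_mem _
    have h1 : ρ.ker ≤ U'.map φ := by
      have := lift_ker φ hφ ρ hρ S hS ⊤ (by
        rw [Subgroup.map_top_of_surjective φ hφ]; exact le_top)
      exact this.trans (Subgroup.map_mono (inf_le_right.trans hSU))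
    have h2 : U'.map φ = ⊤ := by
      rw [eq_top_iff]
      intro y _
      have h3 : ρ y ∈ U.map τ' := by rw [hU]; trivial
      obtain ⟨u, hu, huy⟩ := h3
      obtain ⟨m, rfl⟩ := QuotientGroup.mk'_surjective _ u
      have h4 : (φ m)⁻¹ * y ∈ ρ.ker := by
        rw [MonoidHom.mem_ker, map_mul, map_inv, ← huy]
        exact inv_mul_cancel _
      have h5 := mul_mem (show φ m ∈ U'.map φ from ⟨m, hu, rfl⟩) (h1 h4)
      rwa [mul_inv_cancel_left] at h5
    have h3 := hess _ h2
    rw [← Subgroup.map_comap_eq_self_of_surjective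
      (QuotientGroup.mk'_surjective (S : Subgroup M)) U, ← hU', h3]
    exact Subgroup.map_top_of_surjective _ (QuotientGroup.mk'_surjective _)
  refine frattini_nilp τ' hsurj hess' _ inferInstance ?_
  refine nilp_of_le ?_ sgn_ker_nilp
  rintro _ ⟨u, hu, rfl⟩
  exact hu

lemma ess_quot_nilLe [Fact (Nat.Prime 5)] (S : Sylow 5 M) [hS : (S : Subgroup M).Normal] :
    NilLe 2 (M ⧸ (S : Subgroup M)) := by
  have hle : (S : Subgroup M) ≤ (ρ.comp φ).ker := ptwo_le_ker _ _ S.isPGroup'
  refine NilLe.of_ker (sgn.comp (QuotientGroup.lift (S : Subgroup M) (ρ.comp φ) hle))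
    (ess_quot_aux φ hφ hess ρ hρ S hle) (nilLe_one_of_nilp inferInstance)

lemma ess_proper_nilLe (hno : ∀ U : Subgroup M, U ≠ ⊤ → NoSec U) (U : Subgroup M) (hU : U ≠ ⊤) :
    NilLe 2 U := by
  have h5 : Fact (Nat.Prime 5) := ⟨by norm_num⟩
  let S : Sylow 5 M := default
  have hS : (S : Subgroup M).Normal := ess_sylow_normal φ hφ hess ρ hρ S
  have hle : (S : Subgroup M) ≤ (ρ.comp φ).ker := ptwo_le_ker _ _ S.isPGroup'
  have hK : Group.IsNilpotent (ρ.comp φ).ker := ess_ker_nilp φ hφ hess ρ hρ
  set τ : U →* S3 := (ρ.comp φ).comp U.subtype with hτ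
  have hKU : Group.IsNilpotent τ.ker := by
    refine nilp_of_injective (U.subtype.subgroupMap τ.ker)
      (subgroupMap_injective _ U.subtype_injective _) ?_
    refine nilp_of_le ?_ hK
    rintro _ ⟨u, hu, rfl⟩
    exact hu
  by_cases hr : τ.range = ⊤
  · have hsurj : Function.Surjective τ := MonoidHom.range_eq_top.1 hr
    refine NilLe.of_ker (sgn.comp τ) ?_ (nilLe_one_of_nilp inferInstance)
    refine ind_aux _ U rfl τ ((S : Subgroup M).subgroupOf U) hsurj hKU
      (S.isPGroup'.comap_of_injective _ U.subtype_injective) ?_ ?_ (hno U hU)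
    · intro h
      exact S.not_dvd_index (h.trans (Subgroup.relIndex_dvd_index_of_normal _ _))
    · let g : U ⧸ ((S : Subgroup M).subgroupOf U) →* M ⧸ (S : Subgroup M) :=
        QuotientGroup.map _ _ U.subtype le_rfl
      have hg : Function.Injective g := by
        rw [← MonoidHom.ker_eq_bot_iff, eq_bot_iff]
        intro x hx
        obtain ⟨x, rfl⟩ := QuotientGroup.mk'_surjective _ x
        rw [MonoidHom.mem_ker] at hx
        change (QuotientGroup.mk (x : M) : M ⧸ (S : Subgroup M)) = 1 at hx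
        rw [QuotientGroup.eq_one_iff] at hx
        rw [Subgroup.mem_bot]
        exact (QuotientGroup.eq_one_iff x).2 hx
      refine nilp_of_injective (g.subgroupMap _) (subgroupMap_injective g hg _) ?_
      refine nilp_of_le ?_ (ess_quot_aux φ hφ hess ρ hρ S hle)
      rintro _ ⟨_, ⟨u, hu, rfl⟩, rfl⟩
      exact hu
  · exact NilLe.of_ker τ hKU (nilLe_one_of_nilp (S3_proper_nilp _ hr))

end Essential

lemma exists_greatest {G : Type} [Group G] [Finite G] (C : Subgroup G → Prop) (hbot : C ⊥)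
    (hsup : ∀ A B, C A → C B → C (A ⊔ B)) : ∃ O, C O ∧ ∀ N, C N → N ≤ O := by
  obtain ⟨O, hO⟩ := (Set.toFinite {X : Subgroup G | C X}).exists_maximal ⟨⊥, hbot⟩
  refine ⟨O, hO.1, fun N hN => ?_⟩
  have := hO.2 (hsup O N hO.1 hN) le_sup_left
  exact le_sup_right.trans this

lemma card_mul_relIndex' {G : Type} [Group G] {A B : Subgroup G} (h : A ≤ B) :
    Nat.card A * A.relIndex B = Nat.card B := by
  have := Subgroup.relIndex_mul_relIndex (⊥ : Subgroup G) A B bot_le h
  rwa [Subgroup.relIndex_bot_left, Subgroup.relIndex_bot_left] at this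

lemma pp_sup {G : Type} [Group G] {p : ℕ} (hp : p.Prime) {A B : Subgroup G} (hA : A.Normal)
    (h1 : ¬ p ∣ Nat.card A) (h2 : ¬ p ∣ Nat.card B) : ¬ p ∣ Nat.card (A ⊔ B : Subgroup G) := by
  rw [← card_mul_relIndex' (le_sup_left : A ≤ A ⊔ B), Subgroup.relIndex_sup_left]
  intro h
  rcases (Nat.Prime.dvd_mul hp).1 h with h | h
  · exact h1 h
  · exact h2 (h.trans (Subgroup.relIndex_dvd_card A B))

lemma pp_map {G Q : Type} [Group G] [Group Q] {p : ℕ} (f : G →* Q) {A : Subgroup G}
    (h1 : ¬ p ∣ Nat.card A) : ¬ p ∣ Nat.card (A.map f) := fun h =>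
  h1 (h.trans (Subgroup.card_map_dvd A f))

lemma pp_le {G : Type} [Group G] {p : ℕ} {A B : Subgroup G} (hAB : A ≤ B)
    (h1 : ¬ p ∣ Nat.card B) : ¬ p ∣ Nat.card A := fun h =>
  h1 (h.trans (Subgroup.card_dvd_of_le hAB))

lemma pp_pelement {G : Type} [Group G] {p : ℕ} (hp : p.Prime) {H : Subgroup G}
    (hH : ¬ p ∣ Nat.card H) {x : G} (hx : x ∈ H) {k : ℕ} (hk : x ^ (p ^ k) = 1) : x = 1 := by
  rw [← orderOf_eq_one_iff]
  have h1 := orderOf_dvd_of_pow_eq_one hk
  have h2 : orderOf x ∣ Nat.card H := by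
    have := orderOf_dvd_natCard (⟨x, hx⟩ : H)
    rwa [← Subgroup.orderOf_coe] at this
  exact Nat.eq_one_of_dvd_coprimes (Nat.Coprime.pow_left k ((Nat.Prime.coprime_iff_not_dvd hp).2 hH))
    h1 h2

lemma pp_comap {G Q : Type} [Group G] [Group Q] {p : ℕ} (hp : p.Prime) (f : G →* Q)
    (hk : ¬ p ∣ Nat.card f.ker) {A : Subgroup Q} (h1 : ¬ p ∣ Nat.card A) :
    ¬ p ∣ Nat.card (A.comap f) := by
  have hle : f.ker ≤ A.comap f := by
    intro x hx
    rw [Subgroup.mem_comap, MonoidHom.mem_ker.1 hx]; exact one_mem _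
  rw [← card_mul_relIndex' hle, Subgroup.relIndex_ker]
  intro h
  rcases (Nat.Prime.dvd_mul hp).1 h with h | h
  · exact hk h
  · exact h1 (h.trans (Subgroup.card_dvd_of_le (Subgroup.map_comap_le f A)))

/-- Minimal normal subgroups of soluble groups have prime power order. -/
lemma minimal_pgroup {G : Type} [Group G] [Finite G] [Group.IsSolvable G] (X : Subgroup G)
    (hX : X.Normal) (hne : X ≠ ⊥) (hmin : ∀ R : Subgroup G, R.Normal → R ≤ X → R = ⊥ ∨ R = X) :
    ∃ q : ℕ, q.Prime ∧ IsPGroup q X := by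
  have h1 : ⁅X, X⁆ = ⊥ := by
    rcases hmin ⁅X, X⁆ inferInstance (Subgroup.commutator_le_left X X) with h | h
    · exact h
    · exact absurd h (Group.IsSolvable.commutator_lt_of_ne_bot hne).ne
  have hcomm : ∀ x ∈ X, ∀ y ∈ X, x * y = y * x := by
    rw [Subgroup.commutator_eq_bot_iff_le_centralizer] at h1
    intro x hx y hy
    exact (Subgroup.mem_centralizer_iff.1 (h1 hy)) x hx
  have hcard : Nat.card X ≠ 1 := by
    intro h; exact hne (Subgroup.card_eq_one.1 h)
  obtain ⟨q, hq, hqd⟩ := Nat.exists_prime_and_dvd hcard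
  have : Fact q.Prime := ⟨hq⟩
  refine ⟨q, hq, ?_⟩
  let P : Sylow q X := default
  have hPn : (P : Subgroup X).Normal := by
    constructor
    intro x hx y
    have : y * x * y⁻¹ = x := by
      apply Subtype.ext
      show (y : G) * x * (y : G)⁻¹ = x
      rw [hcomm y y.2 x x.2]; group
    rw [this]; exact hx
  have h2 := P.characteristic_of_normal hPn
  have h3 : ((P : Subgroup X).map X.subtype).Normal := inferInstance
  rcases hmin _ h3 (Subgroup.map_subtype_le _) with h | h
  · exfalso
    have h4 : (P : Subgroup X) = ⊥ := by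
      rw [Subgroup.map_eq_bot_iff, Subgroup.ker_subtype, le_bot_iff] at h
      exact h
    have h5 := P.card_eq_multiplicity
    rw [h4, Subgroup.card_bot] at h5
    have h6 : 0 < (Nat.card X).factorization q :=
      Nat.Prime.factorization_pos_of_dvd hq Nat.card_pos.ne' hqd
    have h7 : 1 < q ^ (Nat.card X).factorization q := Nat.one_lt_pow h6.ne' hq.one_lt
    omega
  · rw [← h]
    exact P.isPGroup'.map _

/-- The Hall-Higman centraliser lemma. -/
lemma hall_higman {G : Type} [Group G] [Finite G] [Group.IsSolvable G] {p : ℕ} (hp : p.Prime)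
    (hO : ∀ N : Subgroup G, N.Normal → ¬ p ∣ Nat.card N → N = ⊥) (P : Subgroup G)
    (hP : P.Normal) (hPp : IsPGroup p P)
    (hmax : ∀ N : Subgroup G, N.Normal → IsPGroup p N → N ≤ P) :
    Subgroup.centralizer (P : Set G) ≤ P := by
  by_contra hC
  set C := Subgroup.centralizer (P : Set G) with hCdef
  have hCn : C.Normal := inferInstance
  set Z := C ⊓ P with hZ
  have hZn : Z.Normal := inferInstance
  have hZp : IsPGroup p Z := hPp.to_le inf_le_right
  have h1 : C.map (QuotientGroup.mk' Z) ≠ ⊥ := by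
    intro h
    rw [Subgroup.map_eq_bot_iff, QuotientGroup.ker_mk'] at h
    exact hC (h.trans inf_le_right)
  obtain ⟨X, hXn, hXC, hXne, hXmin⟩ := exists_minimal_normal _
    (hCn.map _ (QuotientGroup.mk'_surjective Z)) h1
  obtain ⟨q, hq, hXq⟩ := minimal_pgroup X hXn hXne hXmin
  set R := X.comap (QuotientGroup.mk' Z) with hR
  have hRn : R.Normal := hXn.comap _
  have hRC : R ≤ C := by
    intro r hr
    obtain ⟨c, hc, hcr⟩ := hXC hr
    rw [QuotientGroup.mk'_eq_mk'] at hcr
    obtain ⟨z, hz, rfl⟩ := hcr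
    exact mul_mem hc hz.1
  have hXR : R ≤ Z → X = ⊥ := by
    intro h
    rw [eq_bot_iff]
    intro x hx
    obtain ⟨r, rfl⟩ := QuotientGroup.mk'_surjective Z x
    exact (QuotientGroup.eq_one_iff r).2 (h hx)
  by_cases hqp : q = p
  · subst hqp
    have h2 : IsPGroup q R := hXq.comap_of_ker_isPGroup _ (by rwa [QuotientGroup.ker_mk'])
    exact hXne (hXR (le_inf hRC (hmax R hRn h2)))
  · have : Fact q.Prime := ⟨hq⟩
    let Q : Sylow q R := default
    let f : R →* X := (QuotientGroup.mk' Z).subgroupComap X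
    have hf : Function.Surjective f := by
      rintro ⟨x, hx⟩
      obtain ⟨r, rfl⟩ := QuotientGroup.mk'_surjective Z x
      exact ⟨⟨r, hx⟩, rfl⟩
    have h2 : (⊤ : Subgroup X) = (Q.mapSurjective hf : Subgroup X) :=
      (Q.mapSurjective hf).is_maximal' (hXq.to_subgroup ⊤) le_top
    have hQn : (Q : Subgroup R).Normal := by
      constructor
      intro x hx r
      have h3 : f r ∈ (Q.mapSurjective hf : Subgroup X) := by rw [← h2]; trivial
      rw [Sylow.coe_mapSurjective] at h3
      obtain ⟨y, hy, hyr⟩ := h3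
      have h4 : QuotientGroup.mk' Z (y : G) = QuotientGroup.mk' Z (r : G) :=
        congrArg Subtype.val hyr
      rw [QuotientGroup.mk'_eq_mk'] at h4
      obtain ⟨z, hz, hzr⟩ := h4
      have hzR : z ∈ R := by
        rw [hR, Subgroup.mem_comap, (show QuotientGroup.mk' Z z = 1 from
          (QuotientGroup.eq_one_iff z).2 hz)]
        exact one_mem _
      have h5 : r = y * ⟨z, hzR⟩ := Subtype.ext hzr.symm
      have h6 : (⟨z, hzR⟩ : R) * x = x * ⟨z, hzR⟩ := by
        apply Subtype.ext
        exact (Subgroup.mem_centralizer_iff.1 (hRC x.2)) z hz.2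
      have h7 : r * x * r⁻¹ = y * x * y⁻¹ := by
        rw [h5, mul_inv_rev, mul_assoc y, h6]; group
      rw [h7]
      exact (Q : Subgroup R).mul_mem ((Q : Subgroup R).mul_mem hy hx)
        ((Q : Subgroup R).inv_mem hy)
    have h3 := Q.characteristic_of_normal hQn
    have h4 : ((Q : Subgroup R).map R.subtype).Normal := inferInstance
    have h5 : ¬ p ∣ Nat.card ((Q : Subgroup R).map R.subtype) := by
      obtain ⟨n, hn⟩ := IsPGroup.iff_card.1 (Q.isPGroup'.map R.subtype)
      rw [hn]
      intro h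
      exact hqp ((Nat.prime_dvd_prime_iff_eq hp hq).1 (hp.dvd_of_dvd_pow h)).symm
    have h6 := hO _ h4 h5
    rw [Subgroup.map_eq_bot_iff, Subgroup.ker_subtype, le_bot_iff] at h6
    apply hXne
    have h7 : (⊤ : Subgroup X) = ⊥ := by
      rw [h2, Sylow.coe_mapSurjective, h6, Subgroup.map_bot]
    rw [eq_bot_iff]
    intro x hx
    have h8 : (⟨x, hx⟩ : X) ∈ (⊥ : Subgroup X) := by rw [← h7]; trivial
    rw [Subgroup.mem_bot] at h8
    exact congrArg Subtype.val h8

/-- A subgroup containing all Sylow subgroups is everything. -/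
lemma eq_top_of_sylow_le {G : Type} [Group G] [Finite G] (H : Subgroup G)
    (h : ∀ (q : ℕ) (_ : Fact q.Prime) (P : Sylow q G), (P : Subgroup G) ≤ H) : H = ⊤ := by
  rw [← Subgroup.index_eq_one]
  by_contra hne
  obtain ⟨q, hq, hqd⟩ := Nat.exists_prime_and_dvd hne
  have : Fact q.Prime := ⟨hq⟩
  let P : Sylow q G := default
  exact P.not_dvd_index (hqd.trans (Subgroup.index_dvd_of_le (h q this P)))

/-- The formation: finite soluble groups with a normal `p'`-subgroup whose quotient has no bad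
section. -/
def FF (p : ℕ) (G : Type) [Group G] : Prop :=
  Finite G ∧ Group.IsSolvable G ∧ ∃ (N : Subgroup G) (_ : N.Normal), ¬ p ∣ Nat.card N ∧
    NoSec (G ⧸ N)

lemma mk'_eq_one {G : Type} [Group G] {N : Subgroup G} [N.Normal] {x : G} :
    QuotientGroup.mk' N x = 1 ↔ x ∈ N := QuotientGroup.eq_one_iff x

lemma FF.of_hom {p : ℕ} {G Q : Type} [Group G] [Finite G] [Group.IsSolvable G] [Group Q]
    (f : G →* Q) (hk : ¬ p ∣ Nat.card f.ker) (hQ : NoSec Q) : FF p G := by
  refine ⟨inferInstance, inferInstance, f.ker, inferInstance, hk, ?_⟩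
  exact (hQ.subgroup f.range).of_injective (QuotientGroup.quotientKerEquivRange f).toMonoidHom
    (QuotientGroup.quotientKerEquivRange f).injective

/-- The structure of soluble minimal non-`FF`-groups. -/
lemma star {p : ℕ} (hp : p.Prime) (hp5 : p ≠ 5) {G : Type} [Group G] [Finite G]
    [hsol : Group.IsSolvable G] (hG : ¬ FF p G) (hmin : ∀ U : Subgroup G, U ≠ ⊤ → FF p U) :
    ¬ NilLe 3 G ∧ ∀ U : Subgroup G, U ≠ ⊤ → NilLe 3 U := by
  have hpf : Fact p.Prime := ⟨hp⟩
  have h5f : Fact (Nat.Prime 5) := ⟨by norm_num⟩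
  -- the largest normal `p'`-subgroup
  obtain ⟨O, ⟨hOn, hOp⟩, hOmax⟩ := exists_greatest
    (fun N : Subgroup G => N.Normal ∧ ¬ p ∣ Nat.card N)
    ⟨inferInstance, by rw [Subgroup.card_bot]; exact hp.one_lt.ne' ∘ Nat.dvd_one.1⟩
    (fun A B hA hB => by
      have h1 := hA.1
      have h2 := hB.1
      exact ⟨inferInstance, pp_sup hp hA.1 hA.2 hB.2⟩)
  -- it lies in the Frattini subgroup
  have hOess : ∀ L : Subgroup G, L ⊔ O = ⊤ → L = ⊤ := by
    intro L hL
    by_contra hne
    obtain ⟨-, -, N, hN, hNp, hNo⟩ := hmin L hne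
    apply hG
    set N' : Subgroup G := O ⊔ N.map L.subtype with hN'
    have hN'n : N'.Normal := by
      rw [← Subgroup.normalizer_eq_top_iff, eq_top_iff, ← hL]
      apply sup_le
      · have hLN : L ≤ Subgroup.normalizer ((N.map L.subtype : Subgroup G) : Set G) := by
          intro l hl
          rw [Subgroup.mem_normalizer_iff]
          intro x
          constructor
          · rintro ⟨n, hn, rfl⟩
            exact ⟨⟨l, hl⟩ * n * ⟨l, hl⟩⁻¹, hN.conj_mem n hn _, rfl⟩
          · rintro ⟨n, hn, hnx⟩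
            refine ⟨⟨l, hl⟩⁻¹ * n * ⟨l, hl⟩, ?_, ?_⟩
            · have := hN.conj_mem n hn (⟨l, hl⟩⁻¹)
              rwa [inv_inv] at this
            · change l⁻¹ * (L.subtype n) * l = x
              rw [hnx]; group
        intro l hl
        rw [Subgroup.mem_normalizer_iff]
        have hmain : ∀ g ∈ L, ∀ x ∈ N', g * x * g⁻¹ ∈ N' := by
          intro g hg x hx
          obtain ⟨o, ho, m, hm, rfl⟩ := Subgroup.mem_sup_of_normal_left.1 hx
          have : g * (o * m) * g⁻¹ = (g * o * g⁻¹) * (g * m * g⁻¹) := by group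
          rw [this]
          exact mul_mem (Subgroup.mem_sup_left (hOn.conj_mem o ho g))
            (Subgroup.mem_sup_right ((Subgroup.mem_normalizer_iff.1 (hLN hg) m).1 hm))
        intro x
        constructor
        · exact hmain l hl x
        · intro hx
          have := hmain l⁻¹ (inv_mem hl) _ hx
          simpa [mul_assoc] using this
      · exact le_sup_left.trans Subgroup.le_normalizer
    have hN'p : ¬ p ∣ Nat.card N' := pp_sup hp hOn hOp (pp_map _ hNp)
    refine ⟨inferInstance, inferInstance, N', hN'n, hN'p, ?_⟩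
    let f : L ⧸ N →* G ⧸ N' := QuotientGroup.map N N' L.subtype (by
      intro n hn
      exact Subgroup.mem_sup_right ⟨n, hn, rfl⟩)
    refine hNo.of_surjective f ?_
    intro y
    obtain ⟨g, rfl⟩ := QuotientGroup.mk'_surjective N' y
    have hg : g ∈ L ⊔ O := by rw [hL]; trivial
    obtain ⟨l, hl, o, ho, rfl⟩ := Subgroup.mem_sup_of_normal_right.1 hg
    refine ⟨QuotientGroup.mk ⟨l, hl⟩, ?_⟩
    change QuotientGroup.mk' N' l = QuotientGroup.mk' N' (l * o)
    rw [map_mul, mk'_eq_one.2 (Subgroup.mem_sup_left ho), mul_one]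
  -- the quotient by `O`
  have hQO : ∀ N : Subgroup (G ⧸ O), N.Normal → ¬ p ∣ Nat.card N → N = ⊥ := by
    intro N hN hNp
    have h1 : N.comap (QuotientGroup.mk' O) ≤ O :=
      hOmax _ ⟨hN.comap _, pp_comap hp _ (by rwa [QuotientGroup.ker_mk']) hNp⟩
    rw [eq_bot_iff]
    intro y hy
    obtain ⟨g, rfl⟩ := QuotientGroup.mk'_surjective O y
    exact mk'_eq_one.2 (h1 hy)
  obtain ⟨P, ⟨hPn, hPp⟩, hPmax⟩ := exists_greatest
    (fun N : Subgroup (G ⧸ O) => N.Normal ∧ IsPGroup p N)
    ⟨inferInstance, IsPGroup.of_bot⟩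
    (fun A B hA hB => by
      have h1 := hA.1
      have h2 := hB.1
      exact ⟨inferInstance, hA.2.to_sup_of_normal_left hB.2⟩)
  have hHH := hall_higman hp hQO P hPn hPp (fun N h1 h2 => hPmax N ⟨h1, h2⟩)
  set P1 : Subgroup G := P.comap (QuotientGroup.mk' O) with hP1
  have hP1n : P1.Normal := hPn.comap _
  have hOP1 : O ≤ P1 := by
    intro x hx
    rw [hP1, Subgroup.mem_comap, mk'_eq_one.2 hx]; exact one_mem _
  have hP1map : P1.map (QuotientGroup.mk' O) = P :=
    Subgroup.map_comap_eq_self_of_surjective (QuotientGroup.mk'_surjective O) P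
  have hP1nil : Group.IsNilpotent P1 := by
    refine frattini_nilp (QuotientGroup.mk' O) (QuotientGroup.mk'_surjective O) ?_ P1 hP1n ?_
    · intro U hU
      apply hOess
      rw [eq_top_iff]
      intro g _
      have h1 : QuotientGroup.mk' O g ∈ U.map (QuotientGroup.mk' O) := by rw [hU]; trivial
      obtain ⟨u, hu, hug⟩ := h1
      rw [QuotientGroup.mk'_eq_mk'] at hug
      obtain ⟨o, ho, rfl⟩ := hug
      exact mul_mem (Subgroup.mem_sup_left hu) (Subgroup.mem_sup_right ho)
    · rw [hP1map]; exact hPp.isNilpotent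
  have hP1pow : ∀ x ∈ P1, ∃ k : ℕ, x ^ (p ^ k) ∈ O := by
    intro x hx
    obtain ⟨k, hk⟩ := hPp ⟨_, hx⟩
    refine ⟨k, ?_⟩
    have h1 : (QuotientGroup.mk' O x) ^ (p ^ k) = 1 := congrArg Subtype.val hk
    rw [← map_pow] at h1
    exact mk'_eq_one.1 h1
  -- proper subgroups of `G / P1` have no bad sections
  have hMprop : ∀ U : Subgroup (G ⧸ P1), U ≠ ⊤ → NoSec U := by
    intro U hU
    set U' : Subgroup G := U.comap (QuotientGroup.mk' P1) with hU'
    have hU'ne : U' ≠ ⊤ := by
      intro h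
      apply hU
      rw [← Subgroup.map_comap_eq_self_of_surjective (QuotientGroup.mk'_surjective P1) U, ← hU', h]
      exact Subgroup.map_top_of_surjective _ (QuotientGroup.mk'_surjective P1)
    obtain ⟨-, -, N, hN, hNp, hNo⟩ := hmin U' hU'ne
    have hPU : P1 ≤ U' := by
      intro x hx
      rw [hU', Subgroup.mem_comap, mk'_eq_one.2 hx]; exact one_mem _
    have hNP : ∀ n ∈ N, (n : G) ∈ P1 := by
      intro n hn
      apply hHH
      rw [Subgroup.mem_centralizer_iff]
      intro y hy
      obtain ⟨x, rfl⟩ := QuotientGroup.mk'_surjective O y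
      have hxP : x ∈ P1 := hy
      -- the commutator
      set c : U' := n * ⟨x, hPU hxP⟩ * n⁻¹ * (⟨x, hPU hxP⟩)⁻¹ with hc
      have hcN : c ∈ N := by
        have : c = n * (⟨x, hPU hxP⟩ * n⁻¹ * (⟨x, hPU hxP⟩)⁻¹) := by rw [hc]; group
        rw [this]
        exact mul_mem hn (hN.conj_mem _ (inv_mem hn) _)
      have hcP : (c : G) ∈ P1 := by
        have : (c : G) = ((n : G) * x * (n : G)⁻¹) * x⁻¹ := rfl
        rw [this]
        exact P1.mul_mem (hP1n.conj_mem x hxP _) (P1.inv_mem hxP)
      obtain ⟨k, hk⟩ := hP1pow _ hcP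
      have h1 : (QuotientGroup.mk' O (c : G)) ^ (p ^ k) = 1 := by
        rw [← map_pow]; exact mk'_eq_one.2 hk
      have h2 : QuotientGroup.mk' O (c : G) = 1 := by
        refine pp_pelement hp (H := (N.map U'.subtype).map (QuotientGroup.mk' O))
          (pp_map _ (pp_map _ hNp)) ⟨(c : G), ⟨c, hcN, rfl⟩, rfl⟩ h1
      have h3 : (c : G) = (n : G) * x * (n : G)⁻¹ * x⁻¹ := rfl
      rw [h3, map_mul, map_mul, map_mul, map_inv, map_inv, mul_inv_eq_one,
        mul_inv_eq_iff_eq_mul] at h2
      exact h2.symm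
    let f : U' ⧸ N →* U := QuotientGroup.lift N ((QuotientGroup.mk' P1).subgroupComap U) (by
      intro n hn
      apply Subtype.ext
      exact mk'_eq_one.2 (hNP n hn))
    refine hNo.of_surjective f ?_
    rintro ⟨y, hy⟩
    obtain ⟨g, rfl⟩ := QuotientGroup.mk'_surjective P1 y
    exact ⟨QuotientGroup.mk ⟨g, hy⟩, rfl⟩
  -- but `G / P1` has a bad section
  have hMbad : ¬ NoSec (G ⧸ P1) := by
    intro hno
    apply hG
    refine ⟨inferInstance, inferInstance, O, hOn, hOp, ?_⟩
    let f : G ⧸ O →* G ⧸ P1 := QuotientGroup.map O P1 (MonoidHom.id G) hOP1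
    refine NoSec.of_pker f hp hp5 ?_ hno
    have h1 : f.ker ≤ P := by
      intro y hy
      obtain ⟨g, rfl⟩ := QuotientGroup.mk'_surjective O y
      have h2 : QuotientGroup.mk' P1 g = 1 := hy
      have h3 : g ∈ P1 := mk'_eq_one.1 h2
      exact h3
    exact hPp.to_le h1
  obtain ⟨Y, hY, φ, hφ, ρ, hρ⟩ : ∃ (Y : Type) (_ : Group Y) (φ : G ⧸ P1 →* Y),
      Function.Surjective φ ∧ ∃ ρ : Y →* S3, BadHom ρ := by
    rw [NoSec] at hMbad
    push Not at hMbad
    obtain ⟨U, Y, hY, φ, ρ, hφ, hρ⟩ := hMbad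
    by_cases hU : U = ⊤
    · subst hU
      refine ⟨Y, hY, φ.comp Subgroup.topEquiv.symm.toMonoidHom, ?_, ρ, hρ⟩
      intro y
      obtain ⟨x, rfl⟩ := hφ y
      exact ⟨x.1, rfl⟩
    · exact absurd hρ ((hMprop U hU).not_badHom φ hφ ρ)
  have hess : ∀ U : Subgroup (G ⧸ P1), U.map φ = ⊤ → U = ⊤ := by
    intro U hU
    by_contra hne
    refine (hMprop U hne).not_badHom (φ.comp U.subtype) ?_ ρ hρ
    intro y
    have : y ∈ U.map φ := by rw [hU]; trivial
    obtain ⟨x, hx, rfl⟩ := this
    exact ⟨⟨x, hx⟩, rfl⟩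
  have hYfin : Finite Y := Finite.of_surjective φ hφ
  constructor
  · -- nilpotent length at least four
    rintro ⟨N, hN, hNnil, hNle⟩
    apply hρ.not_nilLe
    have hNP : N ≤ P1 := by
      have h1 : P1.subgroupOf N = ⊤ := by
        apply eq_top_of_sylow_le
        intro q hq R
        have hRn : (R : Subgroup N).Normal := inferInstance
        have hRc := R.characteristic_of_normal hRn
        have hRG : ((R : Subgroup N).map N.subtype).Normal := inferInstance
        have h2 : (R : Subgroup N).map N.subtype ≤ P1 := by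
          by_cases hqp : q = p
          · subst hqp
            have h3 : ((R : Subgroup N).map N.subtype).map (QuotientGroup.mk' O) ≤ P :=
              hPmax _ ⟨hRG.map _ (QuotientGroup.mk'_surjective O),
                (R.isPGroup'.map _).map _⟩
            intro x hx
            exact h3 ⟨x, hx, rfl⟩
          · refine (hOmax _ ⟨hRG, ?_⟩).trans hOP1
            obtain ⟨n, hn⟩ := IsPGroup.iff_card.1 (R.isPGroup'.map N.subtype)
            rw [hn]
            intro h
            exact hqp ((Nat.prime_dvd_prime_iff_eq hp hq.out).1 (hp.dvd_of_dvd_pow h)).symm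
        intro x hx
        exact h2 ⟨x, hx, rfl⟩
      exact Subgroup.subgroupOf_eq_top.1 h1
    let f : G ⧸ N →* Y := φ.comp (QuotientGroup.map N P1 (MonoidHom.id G) hNP)
    refine NilLe.of_surjective f ?_ hNle
    intro y
    obtain ⟨m, rfl⟩ := hφ y
    obtain ⟨g, rfl⟩ := QuotientGroup.mk'_surjective P1 m
    exact ⟨QuotientGroup.mk g, rfl⟩
  · intro L hL
    set f : L →* G ⧸ P1 := (QuotientGroup.mk' P1).comp L.subtype with hf
    have hfker : ∀ x : L, f x = 1 ↔ (x : G) ∈ P1 := fun x => mk'_eq_one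
    by_cases hr : f.range = ⊤
    · -- the image is everything
      have hfs : Function.Surjective f := MonoidHom.range_eq_top.1 hr
      obtain ⟨-, -, N, hN, hNp, hNo⟩ := hmin L hL
      set OL : Subgroup L := O.subgroupOf L with hOL
      have hOLn : OL.Normal := inferInstance
      set A : Subgroup L := N ⊔ OL with hA
      have hAn : A.Normal := inferInstance
      have hOLp : ¬ p ∣ Nat.card OL := by
        intro h
        apply hOp
        have h1 : Nat.card (OL.map L.subtype) ∣ Nat.card O :=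
          Subgroup.card_dvd_of_le (by
            rw [hOL, Subgroup.subgroupOf_map_subtype]; exact inf_le_left)
        rw [Subgroup.card_map_of_injective L.subtype_injective] at h1
        exact h.trans h1
      have hAp : ¬ p ∣ Nat.card A := pp_sup hp hN hNp hOLp
      have hAno : NoSec (L ⧸ A) := by
        refine hNo.of_surjective (QuotientGroup.map N A (MonoidHom.id L) le_sup_left) ?_
        intro y
        obtain ⟨l, rfl⟩ := QuotientGroup.mk'_surjective A y
        exact ⟨QuotientGroup.mk l, rfl⟩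
      let S : Sylow 5 (G ⧸ P1) := default
      have hS : (S : Subgroup (G ⧸ P1)).Normal := ess_sylow_normal φ hφ hess ρ hρ S
      have hSA : (S : Subgroup (G ⧸ P1)) ≤ A.map f := by
        refine ess_sylow_le φ hφ hess ρ hρ S _ (hAn.map f hfs) ?_
        apply hρ.ker_le _ ((hAn.map f hfs).map φ hφ)
        obtain ⟨u, hu1, hu2⟩ := hAno.not_factor (QuotientGroup.mk' A) (φ.comp f)
          (hφ.comp hfs) ρ hρ
        intro hbot
        apply hu2
        have : φ (f u) ∈ (A.map f).map φ := ⟨f u, ⟨u, mk'_eq_one.1 hu1, rfl⟩, rfl⟩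
        rw [hbot, Subgroup.mem_bot] at this
        exact this
      -- the preimage of the Sylow subgroup
      set EL : Subgroup L := (S : Subgroup (G ⧸ P1)).comap f with hEL
      have hELn : EL.Normal := hS.comap f
      -- the Sylow `p`-subgroup of `P1`
      let R : Sylow p P1 := default
      have hRn : (R : Subgroup P1).Normal := inferInstance
      have hRc := R.characteristic_of_normal hRn
      set P0 : Subgroup G := (R : Subgroup P1).map P1.subtype with hP0
      have hP0n : P0.Normal := inferInstance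
      have hP0p : IsPGroup p P0 := R.isPGroup'.map _
      have hP0le : P0 ≤ P1 := Subgroup.map_subtype_le _
      have hP1eq : P1 ≤ P0 ⊔ O := by
        intro x hx
        -- image of `R` in `P` is everything
        let g : P1 →* P := (QuotientGroup.mk' O).subgroupComap P
        have hg : Function.Surjective g := by
          rintro ⟨y, hy⟩
          obtain ⟨z, rfl⟩ := QuotientGroup.mk'_surjective O y
          exact ⟨⟨z, hy⟩, rfl⟩
        have h2 : (⊤ : Subgroup P) = (R.mapSurjective hg : Subgroup P) :=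
          (R.mapSurjective hg).is_maximal' (hPp.to_subgroup ⊤) le_top
        have h3 : g ⟨x, hx⟩ ∈ (R.mapSurjective hg : Subgroup P) := by rw [← h2]; trivial
        rw [Sylow.coe_mapSurjective] at h3
        obtain ⟨y, hy, hyx⟩ := h3
        have h4 : QuotientGroup.mk' O (y : G) = QuotientGroup.mk' O x := congrArg Subtype.val hyx
        rw [QuotientGroup.mk'_eq_mk'] at h4
        obtain ⟨o, ho, rfl⟩ := h4
        exact mul_mem (Subgroup.mem_sup_left ⟨y, hy, rfl⟩) (Subgroup.mem_sup_right ho)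
      -- nilpotency of the image in `G / P0`
      let π' : G ⧸ P0 →* G ⧸ P1 := QuotientGroup.map P0 P1 (MonoidHom.id G) hP0le
      have hπ's : Function.Surjective π' := by
        intro y
        obtain ⟨g, rfl⟩ := QuotientGroup.mk'_surjective P1 y
        exact ⟨QuotientGroup.mk g, rfl⟩
      have hEG : Group.IsNilpotent ((S : Subgroup (G ⧸ P1)).comap π') := by
        refine frattini_nilp π' hπ's ?_ _ (hS.comap π') ?_
        · intro U hU
          have h1 : U.comap (QuotientGroup.mk' P0) = ⊤ := by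
            apply hOess
            rw [eq_top_iff]
            intro g _
            have h2 : QuotientGroup.mk' P1 g ∈ U.map π' := by rw [hU]; trivial
            obtain ⟨u, hu, hug⟩ := h2
            obtain ⟨v, rfl⟩ := QuotientGroup.mk'_surjective P0 u
            have h3 : QuotientGroup.mk' P1 v = QuotientGroup.mk' P1 g := hug
            rw [QuotientGroup.mk'_eq_mk'] at h3
            obtain ⟨z, hz, rfl⟩ := h3
            obtain ⟨a, ha, b, hb, rfl⟩ := Subgroup.mem_sup_of_normal_left.1 (hP1eq hz)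
            have h4 : v * a ∈ U.comap (QuotientGroup.mk' P0) := by
              rw [Subgroup.mem_comap, map_mul, mk'_eq_one.2 ha, mul_one]; exact hu
            rw [← mul_assoc]
            exact mul_mem (Subgroup.mem_sup_left h4) (Subgroup.mem_sup_right hb)
          rw [← Subgroup.map_comap_eq_self_of_surjective (QuotientGroup.mk'_surjective P0) U, h1]
          exact Subgroup.map_top_of_surjective _ (QuotientGroup.mk'_surjective P0)
        · refine nilp_of_le (Subgroup.map_comap_le _ _) S.isPGroup'.isNilpotent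
      have hELnil : Group.IsNilpotent EL := by
        -- first coordinate
        let h₁ : EL →* L ⧸ A := (QuotientGroup.mk' A).comp EL.subtype
        let h₂ : EL →* G ⧸ P0 := ((QuotientGroup.mk' P0).comp L.subtype).comp EL.subtype
        have n1 : Group.IsNilpotent h₁.range := by
          have : IsPGroup p h₁.range := by
            rintro ⟨_, ⟨e, rfl⟩⟩
            obtain ⟨a, ha, hae⟩ := hSA (show f (e : L) ∈ (S : Subgroup (G ⧸ P1)) from e.2)
            have h1 : f (a⁻¹ * (e : L)) = 1 := by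
              rw [map_mul, map_inv, hae, inv_mul_cancel]
            rw [hfker] at h1
            obtain ⟨k, hk⟩ := hP1pow _ h1
            refine ⟨k, Subtype.ext ?_⟩
            show (QuotientGroup.mk' A (e : L)) ^ (p ^ k) = 1
            have h2 : QuotientGroup.mk' A (e : L) = QuotientGroup.mk' A (a⁻¹ * (e : L)) := by
              rw [map_mul, map_inv, mk'_eq_one.2 ha, inv_one, one_mul]
            rw [h2, ← map_pow, mk'_eq_one]
            exact Subgroup.mem_sup_right (show (a⁻¹ * (e : L)) ^ (p ^ k) ∈ OL from hk)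
          exact this.isNilpotent
        have n2 : Group.IsNilpotent h₂.range := by
          refine nilp_of_le ?_ hEG
          rintro _ ⟨e, rfl⟩
          exact e.2
        have hinj : Function.Injective (h₁.rangeRestrict.prod h₂.rangeRestrict) := by
          rw [← MonoidHom.ker_eq_bot_iff, eq_bot_iff]
          intro e he
          rw [MonoidHom.mem_ker] at he
          have e1 : QuotientGroup.mk' A (e : L) = 1 := congrArg Subtype.val (congrArg Prod.fst he)
          have e2 : QuotientGroup.mk' P0 ((e : L) : G) = 1 :=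
            congrArg Subtype.val (congrArg Prod.snd he)
          rw [mk'_eq_one] at e1 e2
          obtain ⟨k, hk⟩ := hP0p ⟨_, e2⟩
          have hk' : ((e : L) : G) ^ (p ^ k) = 1 := congrArg Subtype.val hk
          have hk'' : (e : L) ^ (p ^ k) = 1 := Subtype.ext hk'
          rw [Subgroup.mem_bot]
          exact Subtype.ext (pp_pelement hp hAp e1 hk'')
        exact nilp_of_injective _ hinj inferInstance
      -- conclude
      let g : L →* (G ⧸ P1) ⧸ (S : Subgroup (G ⧸ P1)) :=
        (QuotientGroup.mk' (S : Subgroup (G ⧸ P1))).comp f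
      have hgk : g.ker = EL := by
        ext x
        exact mk'_eq_one
      refine NilLe.of_ker g (by rw [hgk]; exact hELnil) ?_
      exact NilLe.of_injective g.range.subtype g.range.subtype_injective
        (ess_quot_nilLe φ hφ hess ρ hρ S)
    · refine NilLe.of_ker f ?_ (ess_proper_nilLe φ hφ hess ρ hρ hMprop _ hr)
      refine nilp_of_injective (L.subtype.subgroupMap f.ker)
        (subgroupMap_injective _ L.subtype_injective _) ?_
      refine nilp_of_le ?_ hP1nil
      rintro _ ⟨u, hu, rfl⟩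
      exact (hfker u).1 hu

/-- A class of groups. -/
abbrev GroupClass : Type 1 := (G : Type) → [Group G] → Prop

/-- Formations of finite groups. -/
structure IsFormation (F : GroupClass) : Prop where
  finite : ∀ (G : Type) [Group G], F G → Finite G
  nonempty : ∃ (G : Type) (_ : Group G), F G
  iso : ∀ (G H : Type) [Group G] [Group H], Nonempty (G ≃* H) → F G → F H
  quotient : ∀ (G : Type) [Group G] (N : Subgroup G) [N.Normal], F G → F (G ⧸ N)
  subdirect : ∀ (G : Type) [Group G] [Finite G] (M N : Subgroup G) [M.Normal] [N.Normal],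
    F (G ⧸ M) → F (G ⧸ N) → F (G ⧸ (M ⊓ N))

/-- `H / K` is a chief factor of `G`. -/
structure IsChief {G : Type} [Group G] (H K : Subgroup G) : Prop where
  normal_top : H.Normal
  normal_bot : K.Normal
  lt : K < H
  minimal : ∀ R : Subgroup G, R.Normal → K ≤ R → R ≤ H → R = K ∨ R = H

/-- The centraliser `C_G(H/K)` of a normal factor `H/K`. -/
def factorCentralizer {G : Type} [Group G] (H K : Subgroup G) [hH : H.Normal] : Subgroup G where
  carrier := {g | ∀ h ∈ H, g * h * g⁻¹ * h⁻¹ ∈ K}
  mul_mem' := by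
    intro a b ha hb h hh
    have h1 := ha (b * h * b⁻¹) (hH.conj_mem h hh b)
    have h2 := hb h hh
    have h3 := K.mul_mem h1 h2
    have : a * (b * h * b⁻¹) * a⁻¹ * (b * h * b⁻¹)⁻¹ * (b * h * b⁻¹ * h⁻¹) =
        a * b * h * (a * b)⁻¹ * h⁻¹ := by group
    rwa [this] at h3
  one_mem' := by
    intro h _
    simp
  inv_mem' := by
    intro a ha h hh
    have h1 := ha (a⁻¹ * h * a) (by
      have := hH.conj_mem h hh a⁻¹
      rwa [inv_inv] at this)
    have h2 := K.inv_mem h1
    have : (a * (a⁻¹ * h * a) * a⁻¹ * (a⁻¹ * h * a)⁻¹)⁻¹ = a⁻¹ * h * a⁻¹⁻¹ * h⁻¹ := by group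
    rwa [this] at h2

lemma mem_factorCentralizer {G : Type} [Group G] {H K : Subgroup G} [H.Normal] {g : G} :
    g ∈ factorCentralizer H K ↔ ∀ h ∈ H, g * h * g⁻¹ * h⁻¹ ∈ K := Iff.rfl

instance {G : Type} [Group G] (H K : Subgroup G) [hH : H.Normal] [hK : K.Normal] :
    (factorCentralizer H K).Normal := by
  constructor
  intro n hn g h hh
  have h1 := hn (g⁻¹ * h * g) (by
    have := hH.conj_mem h hh g⁻¹
    rwa [inv_inv] at this)
  have h2 := hK.conj_mem _ h1 g
  have : g * (n * (g⁻¹ * h * g) * n⁻¹ * (g⁻¹ * h * g)⁻¹) * g⁻¹ =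
      g * n * g⁻¹ * h * (g * n * g⁻¹)⁻¹ * h⁻¹ := by group
  rwa [this] at h2

/-- Local formations: membership is determined by the groups induced on the chief factors. -/
def IsLocal (F : GroupClass) : Prop :=
  ∃ f : ℕ → GroupClass,
    (∀ q : ℕ, q.Prime → IsFormation (f q) ∨ ∀ (G : Type) [Group G], ¬ f q G) ∧
    ∀ (G : Type) [Group G] [Finite G], F G ↔
      ∀ (H K : Subgroup G) [H.Normal] [K.Normal], IsChief H K →
        ∀ q : ℕ, q.Prime → q ∣ K.relIndex H → f q (G ⧸ factorCentralizer H K)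

/-- Fitting classes. -/
def IsFitting (F : GroupClass) : Prop :=
  (∀ (G : Type) [Group G] [Finite G] (N : Subgroup G), N.Normal → F G → F N) ∧
  (∀ (G : Type) [Group G] [Finite G] (M N : Subgroup G), M.Normal → N.Normal → F M → F N →
    F (M ⊔ N : Subgroup G))

/-- Hereditary classes: closed under subgroups. -/
def IsHereditary (F : GroupClass) : Prop :=
  ∀ (G : Type) [Group G] (H : Subgroup G), F G → F H

/-- Minimal non-`F`-groups. -/
def IsMinimalNon (F : GroupClass) (G : Type) [Group G] : Prop :=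
  ¬ F G ∧ ∀ H : Subgroup G, H ≠ ⊤ → F H

/-- The nilpotent length. -/
noncomputable def nilLength (G : Type) [Group G] : ℕ := sInf {n : ℕ | NilLe n G}

/-! ### Closure properties -/

lemma noSec_subsingleton (G : Type) [Group G] [Subsingleton G] : NoSec G := by
  intro U Y _ φ ρ hφ hρ
  obtain ⟨y, hy⟩ := hρ.surj (Equiv.swap 0 1)
  obtain ⟨u, rfl⟩ := hφ y
  have : u = 1 := Subsingleton.elim _ _
  rw [this, map_one, map_one] at hy
  exact absurd hy (by decide)

/-- The local satellite. -/
def LL (p : ℕ) (q : ℕ) (G : Type) [Group G] : Prop :=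
  Finite G ∧ Group.IsSolvable G ∧ (q = p → NoSec G)

lemma LL.of_surjective {p q : ℕ} {G Q : Type} [Group G] [Group Q] (f : G →* Q)
    (hf : Function.Surjective f) (h : LL p q G) : LL p q Q := by
  obtain ⟨h1, h2, h3⟩ := h
  exact ⟨Finite.of_surjective f hf, Group.isSolvable_of_surjective hf,
    fun e => (h3 e).of_surjective f hf⟩

lemma FF.of_surjective {p : ℕ} {G Q : Type} [Group G] [Group Q] (f : G →* Q)
    (hf : Function.Surjective f) (h : FF p G) : FF p Q := by
  obtain ⟨h1, h2, N, hN, hNp, hno⟩ := h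
  have hNf : (N.map f).Normal := hN.map f hf
  refine ⟨Finite.of_surjective f hf, Group.isSolvable_of_surjective hf, N.map f, hNf,
    pp_map f hNp, ?_⟩
  refine hno.of_surjective (QuotientGroup.map N (N.map f) f (Subgroup.le_comap_map f N)) ?_
  intro y
  obtain ⟨y, rfl⟩ := QuotientGroup.mk'_surjective _ y
  obtain ⟨x, rfl⟩ := hf y
  exact ⟨QuotientGroup.mk x, rfl⟩

lemma FF.of_injective {p : ℕ} {G H : Type} [Group G] [Group H] (f : H →* G)
    (hf : Function.Injective f) (h : FF p G) : FF p H := by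
  obtain ⟨h1, h2, N, hN, hNp, hno⟩ := h
  have hfin : Finite H := Finite.of_injective f hf
  have hsol : Group.IsSolvable H := Group.isSolvable_of_isSolvable_injective hf
  have hk : ¬ p ∣ Nat.card ((QuotientGroup.mk' N).comp f).ker := by
    intro h
    apply hNp
    have e : (((QuotientGroup.mk' N).comp f).ker).map f ≤ N := by
      rintro _ ⟨x, hx, rfl⟩
      exact mk'_eq_one.1 hx
    have h3 := Subgroup.card_dvd_of_le e
    rw [Subgroup.card_map_of_injective hf] at h3
    exact h.trans h3
  exact FF.of_hom ((QuotientGroup.mk' N).comp f) hk hno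

lemma solvable_of_prod {G Q₁ Q₂ : Type} [Group G] [Group Q₁] [Group Q₂] (f₁ : G →* Q₁)
    (f₂ : G →* Q₂) (hf : f₁.ker ⊓ f₂.ker = ⊥) (h1 : Group.IsSolvable Q₁)
    (h2 : Group.IsSolvable Q₂) : Group.IsSolvable G := by
  have hinj : Function.Injective (f₁.prod f₂) := by
    rw [← MonoidHom.ker_eq_bot_iff, MonoidHom.ker_prod, hf]
  exact Group.isSolvable_of_isSolvable_injective hinj

lemma NoSec.prod {Q₁ Q₂ : Type} [Group Q₁] [Group Q₂] [Finite Q₁] [Finite Q₂] (h1 : NoSec Q₁)
    (h2 : NoSec Q₂) : NoSec (Q₁ × Q₂) := by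
  refine NoSec.subdirect (MonoidHom.fst Q₁ Q₂) (MonoidHom.snd Q₁ Q₂) ?_ h1 h2
  rw [eq_bot_iff]
  rintro ⟨a, b⟩ ⟨ha, hb⟩
  exact Prod.ext ha hb

lemma FF.subdirect {p : ℕ} (hp : p.Prime) {G Q₁ Q₂ : Type} [Group G] [Finite G] [Group Q₁]
    [Group Q₂] (f₁ : G →* Q₁) (f₂ : G →* Q₂) (hf : f₁.ker ⊓ f₂.ker = ⊥) (h1 : FF p Q₁)
    (h2 : FF p Q₂) : FF p G := by
  obtain ⟨a1, a2, N₁, hN₁, hp₁, hno₁⟩ := h1
  obtain ⟨b1, b2, N₂, hN₂, hp₂, hno₂⟩ := h2
  have hsol : Group.IsSolvable G := solvable_of_prod f₁ f₂ hf a2 b2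
  let g : G →* (Q₁ ⧸ N₁) × (Q₂ ⧸ N₂) :=
    ((QuotientGroup.mk' N₁).comp f₁).prod ((QuotientGroup.mk' N₂).comp f₂)
  refine FF.of_hom g ?_ (hno₁.prod hno₂)
  let e : g.ker →* N₁ × N₂ :=
    { toFun := fun x => (⟨f₁ x, mk'_eq_one.1 (congrArg Prod.fst (MonoidHom.mem_ker.1 x.2))⟩,
        ⟨f₂ x, mk'_eq_one.1 (congrArg Prod.snd (MonoidHom.mem_ker.1 x.2))⟩)
      map_one' := by
        apply Prod.ext
        · exact Subtype.ext (map_one f₁)
        · exact Subtype.ext (map_one f₂)
      map_mul' := fun x y => by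
        apply Prod.ext
        · exact Subtype.ext (map_mul f₁ _ _)
        · exact Subtype.ext (map_mul f₂ _ _) }
  have he : Function.Injective e := by
    rw [← MonoidHom.ker_eq_bot_iff, eq_bot_iff]
    intro x hx
    have h3 : (x : G) ∈ f₁.ker ⊓ f₂.ker := by
      refine ⟨?_, ?_⟩
      · exact congrArg Subtype.val (congrArg Prod.fst (MonoidHom.mem_ker.1 hx))
      · exact congrArg Subtype.val (congrArg Prod.snd (MonoidHom.mem_ker.1 hx))
    rw [hf, Subgroup.mem_bot] at h3
    exact Subtype.ext h3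
  intro h
  have h3 := h.trans (Subgroup.card_dvd_of_injective e he)
  rw [Nat.card_prod] at h3
  rcases (Nat.Prime.dvd_mul hp).1 h3 with h3 | h3
  · exact hp₁ h3
  · exact hp₂ h3

lemma mk'_inf_ker {G : Type} [Group G] (M N : Subgroup G) [M.Normal] [N.Normal] :
    (QuotientGroup.map (M ⊓ N) M (MonoidHom.id G) inf_le_left).ker ⊓
      (QuotientGroup.map (M ⊓ N) N (MonoidHom.id G) inf_le_right).ker = ⊥ := by
  rw [eq_bot_iff]
  rintro x ⟨h1, h2⟩
  obtain ⟨x, rfl⟩ := QuotientGroup.mk'_surjective _ x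
  have h1' : QuotientGroup.mk' M x = 1 := h1
  have h2' : QuotientGroup.mk' N x = 1 := h2
  exact mk'_eq_one.2 ⟨mk'_eq_one.1 h1', mk'_eq_one.1 h2'⟩

lemma isFormation_FF {p : ℕ} (hp : p.Prime) : IsFormation (FF p) where
  finite := fun G _ h => h.1
  nonempty := ⟨PUnit, inferInstance, inferInstance, inferInstance, ⊥, inferInstance, by
    rw [Subgroup.card_bot]; exact hp.one_lt.ne' ∘ Nat.dvd_one.1, noSec_subsingleton _⟩
  iso := fun G H _ _ ⟨e⟩ h => h.of_surjective e.toMonoidHom e.surjective
  quotient := fun G _ N _ h => h.of_surjective _ (QuotientGroup.mk'_surjective N)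
  subdirect := fun G _ _ M N _ _ h1 h2 => FF.subdirect hp _ _ (mk'_inf_ker M N) h1 h2

lemma isFormation_LL (p q : ℕ) : IsFormation (LL p q) where
  finite := fun G _ h => h.1
  nonempty := ⟨PUnit, inferInstance, inferInstance, inferInstance,
    fun _ => noSec_subsingleton _⟩
  iso := fun G H _ _ ⟨e⟩ h => h.of_surjective e.toMonoidHom e.surjective
  quotient := fun G _ N _ h => h.of_surjective _ (QuotientGroup.mk'_surjective N)
  subdirect := fun G _ _ M N _ _ h1 h2 =>
    ⟨inferInstance, solvable_of_prod _ _ (mk'_inf_ker M N) h1.2.1 h2.2.1,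
      fun e => NoSec.subdirect _ _ (mk'_inf_ker M N) (h1.2.2 e) (h2.2.2 e)⟩

/-- A `q`-group extending a central `p`-group yields a normal `q`-subgroup. -/
lemma central_ext {G : Type} [Group G] [Finite G] {p q : ℕ} (hp : p.Prime) (hq : q.Prime)
    (hqp : q ≠ p) (Z : Subgroup G) [hZn : Z.Normal] (X : Subgroup (G ⧸ Z)) (hXn : X.Normal)
    (hXq : IsPGroup q X) (hXne : X ≠ ⊥)
    (hcent : X.comap (QuotientGroup.mk' Z) ≤ Subgroup.centralizer (Z : Set G)) :
    ∃ Q : Subgroup G, Q.Normal ∧ IsPGroup q Q ∧ Q ≠ ⊥ := by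
  have : Fact q.Prime := ⟨hq⟩
  set R := X.comap (QuotientGroup.mk' Z) with hR
  have hRn : R.Normal := hXn.comap _
  let Q : Sylow q R := default
  let f : R →* X := (QuotientGroup.mk' Z).subgroupComap X
  have hf : Function.Surjective f := by
    rintro ⟨x, hx⟩
    obtain ⟨r, rfl⟩ := QuotientGroup.mk'_surjective Z x
    exact ⟨⟨r, hx⟩, rfl⟩
  have h2 : (⊤ : Subgroup X) = (Q.mapSurjective hf : Subgroup X) :=
    (Q.mapSurjective hf).is_maximal' (hXq.to_subgroup ⊤) le_top
  have hQn : (Q : Subgroup R).Normal := by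
    constructor
    intro x hx r
    have h3 : f r ∈ (Q.mapSurjective hf : Subgroup X) := by rw [← h2]; trivial
    rw [Sylow.coe_mapSurjective] at h3
    obtain ⟨y, hy, hyr⟩ := h3
    have h4 : QuotientGroup.mk' Z (y : G) = QuotientGroup.mk' Z (r : G) :=
      congrArg Subtype.val hyr
    rw [QuotientGroup.mk'_eq_mk'] at h4
    obtain ⟨z, hz, hzr⟩ := h4
    have hzR : z ∈ R := by
      rw [hR, Subgroup.mem_comap, mk'_eq_one.2 hz]
      exact one_mem _
    have h5 : r = y * ⟨z, hzR⟩ := Subtype.ext hzr.symm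
    have h6 : (⟨z, hzR⟩ : R) * x = x * ⟨z, hzR⟩ := by
      apply Subtype.ext
      exact (Subgroup.mem_centralizer_iff.1 (hcent x.2)) z hz
    have h7 : r * x * r⁻¹ = y * x * y⁻¹ := by
      rw [h5, mul_inv_rev, mul_assoc y, h6]; group
    rw [h7]
    exact (Q : Subgroup R).mul_mem ((Q : Subgroup R).mul_mem hy hx)
      ((Q : Subgroup R).inv_mem hy)
  have h3 := Q.characteristic_of_normal hQn
  have h4 : ((Q : Subgroup R).map R.subtype).Normal := inferInstance
  refine ⟨_, h4, Q.isPGroup'.map _, ?_⟩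
  intro h6
  rw [Subgroup.map_eq_bot_iff, Subgroup.ker_subtype, le_bot_iff] at h6
  apply hXne
  have h7 : (⊤ : Subgroup X) = ⊥ := by
    rw [h2, Sylow.coe_mapSurjective, h6, Subgroup.map_bot]
  rw [eq_bot_iff]
  intro x hx
  have h8 : (⟨x, hx⟩ : X) ∈ (⊥ : Subgroup X) := by rw [← h7]; trivial
  rw [Subgroup.mem_bot] at h8
  exact congrArg Subtype.val h8

/-- The local condition. -/
def Loc (p : ℕ) (G : Type) [Group G] : Prop :=
  ∀ (H K : Subgroup G) [H.Normal] [K.Normal], IsChief H K →
    ∀ q : ℕ, q.Prime → q ∣ K.relIndex H → LL p q (G ⧸ factorCentralizer H K)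

lemma loc_of_FF {p : ℕ} (hp : p.Prime) {G : Type} [Group G] (h : FF p G) : Loc p G := by
  obtain ⟨h1, h2, N, hN, hNp, hno⟩ := h
  intro H K hH hK hc q hq hqd
  refine ⟨inferInstance, inferInstance, fun e => ?_⟩
  subst e
  have hle : N ≤ factorCentralizer H K := by
    intro n hn h hh
    have hmin : ∀ R : Subgroup (G ⧸ K), R.Normal → R ≤ H.map (QuotientGroup.mk' K) →
        R = ⊥ ∨ R = H.map (QuotientGroup.mk' K) := by
      intro R hR hle
      have h3 : R.comap (QuotientGroup.mk' K) = K ∨ R.comap (QuotientGroup.mk' K) = H := by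
        apply hc.minimal _ (hR.comap _)
        · intro k hk
          rw [Subgroup.mem_comap, mk'_eq_one.2 hk]; exact one_mem _
        · intro x hx
          obtain ⟨y, hy, hyx⟩ := hle hx
          rw [QuotientGroup.mk'_eq_mk'] at hyx
          obtain ⟨z, hz, rfl⟩ := hyx
          exact mul_mem hy (hc.lt.le hz)
      have h4 := Subgroup.map_comap_eq_self_of_surjective (QuotientGroup.mk'_surjective K) R
      rcases h3 with h3 | h3
      · left
        rw [← h4, h3, eq_bot_iff]
        rintro _ ⟨k, hk, rfl⟩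
        exact mk'_eq_one.2 hk
      · right
        rw [← h4, h3]
    have hne : H.map (QuotientGroup.mk' K) ≠ ⊥ := by
      intro hb
      rw [Subgroup.map_eq_bot_iff, QuotientGroup.ker_mk'] at hb
      exact hc.lt.not_ge hb
    obtain ⟨r, hr, hXr⟩ := minimal_pgroup _ (hH.map _ (QuotientGroup.mk'_surjective K)) hne hmin
    have hrq : r = q := by
      have h3 : Nat.card (H.map (QuotientGroup.mk' K)) = K.relIndex H := by
        rw [← Subgroup.relIndex_ker, QuotientGroup.ker_mk']
      have : Fact r.Prime := ⟨hr⟩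
      obtain ⟨n, hn⟩ := IsPGroup.iff_card.1 hXr
      rw [← h3, hn] at hqd
      exact ((Nat.prime_dvd_prime_iff_eq hq hr).1 (hq.dvd_of_dvd_pow hqd)).symm
    subst hrq
    set c := n * h * n⁻¹ * h⁻¹ with hcdef
    have hcN : c ∈ N := by
      have : c = n * (h * n⁻¹ * h⁻¹) := by rw [hcdef]; group
      rw [this]
      exact mul_mem hn (hN.conj_mem _ (inv_mem hn) _)
    have hcH : c ∈ H := mul_mem (hH.conj_mem _ hh _) (inv_mem hh)
    obtain ⟨k, hk⟩ := hXr ⟨_, ⟨c, hcH, rfl⟩⟩
    have hk' : (QuotientGroup.mk' K c) ^ (r ^ k) = 1 := congrArg Subtype.val hk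
    exact mk'_eq_one.1 (pp_pelement hp (H := N.map (QuotientGroup.mk' K)) (pp_map _ hNp)
      ⟨c, hcN, rfl⟩ hk')
  refine hno.of_surjective (QuotientGroup.map N (factorCentralizer H K) (MonoidHom.id G) hle) ?_
  intro y
  obtain ⟨g, rfl⟩ := QuotientGroup.mk'_surjective _ y
  exact ⟨QuotientGroup.mk g, rfl⟩

lemma Loc.of_surjective {p : ℕ} {G Q : Type} [Group G] [Group Q] (f : G →* Q)
    (hf : Function.Surjective f) (h : Loc p G) : Loc p Q := by
  intro H K hH hK hc q hq hqd
  have hHn : (H.comap f).Normal := hH.comap f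
  have hKn : (K.comap f).Normal := hK.comap f
  have hch : IsChief (H.comap f) (K.comap f) := by
    refine ⟨hHn, hKn, ?_, ?_⟩
    · exact (Subgroup.comap_lt_comap_of_surjective hf).2 hc.lt
    · intro R hR hKR hRH
      have hker : f.ker ≤ R := by
        refine le_trans ?_ hKR
        intro x hx
        rw [Subgroup.mem_comap, MonoidHom.mem_ker.1 hx]; exact one_mem _
      have h1 : R = (R.map f).comap f := (Subgroup.comap_map_eq_self hker).symm
      have h2 := hc.minimal (R.map f) (hR.map f hf) (by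
        intro k hk
        obtain ⟨x, rfl⟩ := hf k
        exact ⟨x, hKR hk, rfl⟩) (by
        rintro _ ⟨x, hx, rfl⟩
        exact hRH hx)
      rcases h2 with h2 | h2
      · left; rw [h1, h2]
      · right; rw [h1, h2]
  have hrel : (K.comap f).relIndex (H.comap f) = K.relIndex H := by
    rw [Subgroup.relIndex_comap, Subgroup.map_comap_eq_self_of_surjective hf]
  have h3 := h (H.comap f) (K.comap f) hch q hq (by rwa [hrel])
  have hle : factorCentralizer (H.comap f) (K.comap f) ≤ (factorCentralizer H K).comap f := by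
    intro g hg
    rw [Subgroup.mem_comap, mem_factorCentralizer]
    intro y hy
    obtain ⟨x, rfl⟩ := hf y
    have := hg x hy
    rw [Subgroup.mem_comap] at this
    simpa using this
  refine h3.of_surjective (QuotientGroup.map _ _ f hle) ?_
  intro y
  obtain ⟨y, rfl⟩ := QuotientGroup.mk'_surjective _ y
  obtain ⟨x, rfl⟩ := hf y
  exact ⟨QuotientGroup.mk x, rfl⟩

lemma FF_of_loc {p : ℕ} (hp : p.Prime) (hp5 : p ≠ 5) : ∀ (n : ℕ) (G : Type) [Group G] [Finite G],
    Nat.card G = n → Loc p G → FF p G := by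
  intro n
  induction n using Nat.strong_induction_on with
  | _ n ih =>
    intro G _ _ hn hL
    by_cases htriv : (⊤ : Subgroup G) = ⊥
    · have hs : Subsingleton G := by
        constructor
        intro a b
        have ha : a ∈ (⊤ : Subgroup G) := trivial
        have hb : b ∈ (⊤ : Subgroup G) := trivial
        rw [htriv, Subgroup.mem_bot] at ha hb
        rw [ha, hb]
      refine ⟨inferInstance, inferInstance, ⊥, inferInstance, ?_, noSec_subsingleton _⟩
      rw [Subgroup.card_bot]; exact hp.one_lt.ne' ∘ Nat.dvd_one.1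
    · obtain ⟨X, hXn, -, hXne, hXmin⟩ := exists_minimal_normal (⊤ : Subgroup G) inferInstance htriv
      have hstep : ∀ X : Subgroup G, ∀ _ : X.Normal, X ≠ ⊥ → FF p (G ⧸ X) := by
        intro X hXn hXne
        refine ih _ ?_ (G ⧸ X) rfl (hL.of_surjective _ (QuotientGroup.mk'_surjective X))
        rw [← hn, Subgroup.card_eq_card_quotient_mul_card_subgroup X]
        apply lt_mul_of_one_lt_right Nat.card_pos
        exact (Subgroup.one_lt_card_iff_ne_bot X).2 hXne
      by_cases huniq : ∀ R : Subgroup G, R.Normal → R ≠ ⊥ → X ≤ R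
      · -- unique minimal normal subgroup
        have hchief : IsChief X (⊥ : Subgroup G) :=
          ⟨hXn, inferInstance, bot_lt_iff_ne_bot.2 hXne, fun R hR _ hRX => hXmin R hR hRX⟩
        have hbotn : (⊥ : Subgroup G).Normal := inferInstance
        set C : Subgroup G := factorCentralizer X ⊥ with hC
        have hCn : C.Normal := inferInstance
        have hCmem : ∀ g, g ∈ C ↔ ∀ x ∈ X, g * x = x * g := by
          intro g
          rw [hC, mem_factorCentralizer]
          constructor
          · intro h x hx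
            have := h x hx
            rwa [Subgroup.mem_bot, mul_inv_eq_one, mul_inv_eq_iff_eq_mul] at this
          · intro h x hx
            rw [Subgroup.mem_bot, mul_inv_eq_one, mul_inv_eq_iff_eq_mul]
            exact h x hx
        have hcardX : Nat.card X ≠ 1 := fun h => hXne (Subgroup.card_eq_one.1 h)
        obtain ⟨q₀, hq₀, hqd₀⟩ := Nat.exists_prime_and_dvd hcardX
        obtain ⟨-, hCsol, -⟩ := hL X ⊥ hchief q₀ hq₀ (by
          rwa [Subgroup.relIndex_bot_left])
        have hGX : FF p (G ⧸ X) := hstep X hXn hXne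
        have hsol : Group.IsSolvable G := by
          by_cases hCb : C = ⊥
          · have hinj : Function.Injective (QuotientGroup.mk' C) := by
              rw [← MonoidHom.ker_eq_bot_iff, QuotientGroup.ker_mk', hCb]
            exact Group.isSolvable_of_isSolvable_injective hinj
          · have hXC := huniq C hCn hCb
            have hXsol : Group.IsSolvable X := Group.isSolvable_of_comm (by
              intro a b
              exact Subtype.ext ((hCmem a).1 (hXC a.2) b b.2))
            have h2 : Group.IsSolvable (G ⧸ X) := hGX.2.1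
            exact (Group.isSolvable_iff_subgroup_quotient X).2 ⟨hXsol, h2⟩
        obtain ⟨r, hr, hXr⟩ := minimal_pgroup X hXn hXne hXmin
        have hrf : Fact r.Prime := ⟨hr⟩
        obtain ⟨m, hm⟩ := IsPGroup.iff_card.1 hXr
        have hrX : r ∣ Nat.card X := by
          rw [hm]
          apply dvd_pow_self
          rintro rfl
          rw [pow_zero] at hm
          exact hcardX hm
        obtain ⟨-, -, Rb, hRbn, hRbp, hRno⟩ := hGX
        set R : Subgroup G := Rb.comap (QuotientGroup.mk' X) with hR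
        have hRn : R.Normal := hRbn.comap _
        by_cases hrp : r = p
        · subst hrp
          obtain ⟨-, -, hCno⟩ := hL X ⊥ hchief r hr (by rwa [Subgroup.relIndex_bot_left])
          have hCno' : NoSec (G ⧸ C) := hCno rfl
          have hXpow : ∀ x ∈ X, ∃ k : ℕ, x ^ (r ^ k) = 1 := by
            intro x hx
            obtain ⟨k, hk⟩ := hXr ⟨x, hx⟩
            exact ⟨k, congrArg Subtype.val hk⟩
          -- the intersection
          have hD : R ⊓ C ≤ X := by
            by_contra hDX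
            have hDb : (R ⊓ C).map (QuotientGroup.mk' X) ≠ ⊥ := by
              intro hb
              rw [Subgroup.map_eq_bot_iff, QuotientGroup.ker_mk'] at hb
              exact hDX hb
            have hDn : (R ⊓ C).Normal := inferInstance
            obtain ⟨W, hWn, hWD, hWne, hWmin⟩ := exists_minimal_normal _
              (hDn.map _ (QuotientGroup.mk'_surjective X)) hDb
            obtain ⟨q, hq, hWq⟩ := minimal_pgroup W hWn hWne hWmin
            have hXC : X ≤ C := by
              by_cases hCb : C = ⊥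
              · exfalso
                rw [hCb, inf_bot_eq, Subgroup.map_bot] at hDb
                exact hDb rfl
              · exact huniq C hCn hCb
            have hqr : q ≠ r := by
              rintro rfl
              have h1 : W ≤ Rb := by
                intro w hw
                obtain ⟨d, hd, rfl⟩ := hWD hw
                exact hd.1
              apply hWne
              rw [eq_bot_iff]
              intro w hw
              obtain ⟨k, hk⟩ := hWq ⟨w, hw⟩
              exact pp_pelement hr hRbp (h1 hw) (congrArg Subtype.val hk)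
            obtain ⟨Q, hQn, hQq, hQne⟩ := central_ext hr hq hqr X W hWn hWq hWne (by
              intro g hg
              obtain ⟨d, hd, hdg⟩ := hWD hg
              rw [QuotientGroup.mk'_eq_mk'] at hdg
              obtain ⟨z, hz, rfl⟩ := hdg
              have h1 : d * z ∈ C := mul_mem hd.2 (hXC hz)
              rw [Subgroup.mem_centralizer_iff]
              intro x hx
              exact ((hCmem _).1 h1 x hx).symm)
            have hXQ := huniq Q hQn hQne
            apply hXne
            rw [eq_bot_iff]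
            intro x hx
            obtain ⟨k, hk⟩ := hXpow x hx
            obtain ⟨j, hj⟩ := hQq ⟨x, hXQ hx⟩
            have hj' : x ^ (q ^ j) = 1 := congrArg Subtype.val hj
            rw [Subgroup.mem_bot, ← orderOf_eq_one_iff]
            have hcop : Nat.Coprime (r ^ k) (q ^ j) :=
              Nat.Coprime.pow _ _ ((Nat.coprime_primes hr hq).2 hqr.symm)
            exact Nat.eq_one_of_dvd_coprimes hcop (orderOf_dvd_of_pow_eq_one hk)
              (orderOf_dvd_of_pow_eq_one hj')
          have hfin1 : Finite ((G ⧸ X) ⧸ Rb) := inferInstance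
          let g : G →* ((G ⧸ X) ⧸ Rb) × (G ⧸ C) :=
            ((QuotientGroup.mk' Rb).comp (QuotientGroup.mk' X)).prod (QuotientGroup.mk' C)
          have hgk : IsPGroup r g.ker := by
            rintro ⟨x, hx⟩
            have h1 : QuotientGroup.mk' Rb (QuotientGroup.mk' X x) = 1 :=
              congrArg Prod.fst (MonoidHom.mem_ker.1 hx)
            have h2 : QuotientGroup.mk' C x = 1 := congrArg Prod.snd (MonoidHom.mem_ker.1 hx)
            have h1' : QuotientGroup.mk' X x ∈ Rb := mk'_eq_one.1 h1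
            have h3 : x ∈ X := hD ⟨h1', mk'_eq_one.1 h2⟩
            obtain ⟨k, hk⟩ := hXpow x h3
            exact ⟨k, Subtype.ext hk⟩
          have hGno : NoSec G := NoSec.of_pker g hr hp5 hgk (hRno.prod hCno')
          refine ⟨inferInstance, hsol, ⊥, inferInstance, ?_, ?_⟩
          · rw [Subgroup.card_bot]; exact hp.one_lt.ne' ∘ Nat.dvd_one.1
          · exact hGno.of_surjective _ (QuotientGroup.mk'_surjective ⊥)
        · refine ⟨inferInstance, hsol, R, hRn, ?_, ?_⟩
          · refine pp_comap hp _ ?_ hRbp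
            rw [QuotientGroup.ker_mk', hm]
            intro h
            exact hrp ((Nat.prime_dvd_prime_iff_eq hp hr).1 (hp.dvd_of_dvd_pow h)).symm
          · refine hRno.of_surjective (QuotientGroup.lift Rb (QuotientGroup.lift X
              (QuotientGroup.mk' R) ?_) ?_) ?_
            · intro x hx
              rw [MonoidHom.mem_ker, mk'_eq_one, hR, Subgroup.mem_comap, mk'_eq_one.2 hx]
              exact one_mem _
            · intro y hy
              obtain ⟨x, rfl⟩ := QuotientGroup.mk'_surjective X y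
              exact mk'_eq_one.2 hy
            · intro y
              obtain ⟨x, rfl⟩ := QuotientGroup.mk'_surjective R y
              exact ⟨QuotientGroup.mk (QuotientGroup.mk x), rfl⟩
      · -- two minimal normal subgroups with trivial intersection
        push Not at huniq
        obtain ⟨R, hRn, hRne, hXR⟩ := huniq
        have hint : X ⊓ R = ⊥ := by
          rcases hXmin (X ⊓ R) inferInstance inf_le_left with h | h
          · exact h
          · exact absurd (inf_eq_left.1 h) hXR
        refine FF.subdirect hp (QuotientGroup.mk' X) (QuotientGroup.mk' R) ?_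
          (hstep X hXn hXne) (hstep R hRn hRne)
        rw [QuotientGroup.ker_mk', QuotientGroup.ker_mk', hint]

lemma isLocal_FF {p : ℕ} (hp : p.Prime) (hp5 : p ≠ 5) : IsLocal (FF p) := by
  refine ⟨LL p, fun q _ => Or.inl (isFormation_LL p q), fun G _ _ => ⟨loc_of_FF hp, ?_⟩⟩
  exact fun h => FF_of_loc hp hp5 _ G rfl h

lemma inv_comm_aux {Y : Type} [Group Y] (g y z w : Y) (hwz : z * y = y * w)
    (hz : g * z⁻¹ * g⁻¹ = z) (hw : g * w⁻¹ * g⁻¹ = w) :
    z * (g * y * g⁻¹ * y⁻¹) = g * y * g⁻¹ * y⁻¹ * z := by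
  have h1 : g * z⁻¹ = z * g := mul_inv_eq_iff_eq_mul.1 hz
  have h2 : w⁻¹ * g⁻¹ = g⁻¹ * w := by
    have := congrArg (fun x => g⁻¹ * x) hw
    simpa [mul_assoc] using this
  have h3 : z⁻¹ * y = y * w⁻¹ := by
    rw [inv_mul_eq_iff_eq_mul, ← mul_assoc, hwz, mul_assoc, mul_inv_cancel, mul_one]
  have h4 : y⁻¹ * z = w * y⁻¹ := by
    rw [inv_mul_eq_iff_eq_mul, ← mul_assoc, ← hwz, mul_assoc, mul_inv_cancel, mul_one]
  calc z * (g * y * g⁻¹ * y⁻¹) = (z * g) * y * g⁻¹ * y⁻¹ := by simp only [mul_assoc]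
    _ = g * (z⁻¹ * y) * g⁻¹ * y⁻¹ := by rw [← h1]; simp only [mul_assoc]
    _ = g * y * (w⁻¹ * g⁻¹) * y⁻¹ := by rw [h3]; simp only [mul_assoc]
    _ = g * y * g⁻¹ * (w * y⁻¹) := by rw [h2]; simp only [mul_assoc]
    _ = g * y * g⁻¹ * y⁻¹ * z := by rw [← h4]; simp only [mul_assoc]

lemma noSec_of_inverting {G : Type} [Group G] [Finite G] (N : Subgroup G)
    (h1 : ∀ (x : G) (k : ℕ), x ^ (5 ^ k) = 1 → x ∈ N)
    (h2 : ∀ t : G, t * t = 1 → t ≠ 1 → ∀ n ∈ N, t * n * t⁻¹ = n⁻¹) : NoSec G := by
  classical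
  intro U Y _ φ ρ hφ hρ
  obtain ⟨y0, hy0⟩ := hρ.surj (Equiv.swap 0 1)
  obtain ⟨u0, rfl⟩ := hφ y0
  have hsw : (Equiv.swap 0 1 : S3) * Equiv.swap 0 1 = 1 := by decide
  have hsw1 : (Equiv.swap 0 1 : S3) ≠ 1 := by decide
  obtain ⟨e, j, he, hj⟩ := lift_pelement (ρ.comp φ) Nat.prime_two u0 (k := 1) (by
    rw [MonoidHom.comp_apply, hy0, pow_one, pow_two, hsw])
  set u : U := u0 ^ e with hu
  have hρu : ρ (φ u) = Equiv.swap 0 1 := by rw [← hy0]; exact he
  have hex : ∃ m, u ^ (2 ^ m) = 1 := ⟨j, hj⟩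
  obtain ⟨m, hm, hmin⟩ : ∃ m, u ^ (2 ^ m) = 1 ∧ ∀ k < m, u ^ (2 ^ k) ≠ 1 :=
    ⟨Nat.find hex, Nat.find_spec hex, fun k hk => Nat.find_min hex hk⟩
  obtain ⟨m', rfl⟩ : ∃ m', m = m' + 1 := by
    rcases m with _ | m'
    · exfalso
      rw [pow_zero, pow_one] at hm
      rw [hm, map_one, map_one] at hρu
      exact hsw1 hρu.symm
    · exact ⟨m', rfl⟩
  set t : U := u ^ (2 ^ m') with ht
  have ht1 : t ≠ 1 := hmin m' (Nat.lt_succ_self _)
  have ht2 : t * t = 1 := by
    rw [ht, ← pow_add, ← hm]; congr 1; rw [pow_succ]; ring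
  have htG1 : (t : G) ≠ 1 := fun h => ht1 (Subtype.ext h)
  have htG2 : (t : G) * t = 1 := congrArg Subtype.val ht2
  have hinv : ∀ z ∈ ρ.ker, φ t * z * (φ t)⁻¹ = z⁻¹ := by
    intro z hz
    obtain ⟨x, rfl⟩ := hφ z
    obtain ⟨k, hk⟩ := hρ.pgroup ⟨φ x, hz⟩
    have hk' : (φ x) ^ (5 ^ k) = 1 := congrArg Subtype.val hk
    obtain ⟨e', j', h3, h4⟩ := lift_pelement φ (by norm_num) x hk'
    have h5 : ((x ^ e' : U) : G) ∈ N := h1 _ j' (congrArg Subtype.val h4)
    have h6 := h2 t htG2 htG1 _ h5
    have h7 : t * (x ^ e') * t⁻¹ = (x ^ e')⁻¹ := Subtype.ext h6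
    rw [← h3, ← map_inv, ← map_mul, ← map_mul, h7, map_inv]
  rcases m' with _ | m'
  · have htu : t = u := by rw [ht, pow_zero, pow_one]
    obtain ⟨y, hy⟩ := hρ.surj (Equiv.swap 1 2)
    have hc : φ u * y * (φ u)⁻¹ * y⁻¹ ∈ ρ.ker := by
      apply hρ.cent
      rw [Subgroup.mem_centralizer_iff]
      intro z hz
      rw [htu] at hinv
      have hzy : y⁻¹ * z * y ∈ ρ.ker := by
        have := (inferInstance : ρ.ker.Normal).conj_mem z hz y⁻¹
        rwa [inv_inv] at this
      have e3 := hinv _ (ρ.ker.inv_mem hzy)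
      have e4 := hinv _ (ρ.ker.inv_mem hz)
      rw [inv_inv] at e3 e4
      exact inv_comm_aux (φ u) y z (y⁻¹ * z * y) (by group) e4 e3
    rw [MonoidHom.mem_ker, map_mul, map_mul, map_mul, map_inv, map_inv, hy, hρu] at hc
    exact absurd hc (by decide)
  · have h8 : φ t ∈ ρ.ker := by
      rw [MonoidHom.mem_ker, ht, map_pow, map_pow, hρu, pow_succ, mul_comm, pow_mul, pow_two, hsw,
        one_pow]
    have h9 : φ t = 1 := by
      obtain ⟨k, hk⟩ := hρ.pgroup ⟨φ t, h8⟩
      have hk' : (φ t) ^ (5 ^ k) = 1 := congrArg Subtype.val hk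
      have hk2 : (φ t) ^ 2 = 1 := by rw [pow_two, ← map_mul, ht2, map_one]
      rw [← orderOf_eq_one_iff]
      have hcop : Nat.Coprime (5 ^ k) 2 := Nat.Coprime.pow_left _ (by norm_num)
      exact Nat.eq_one_of_dvd_coprimes hcop (orderOf_dvd_of_pow_eq_one hk')
        (orderOf_dvd_of_pow_eq_one hk2)
    apply hρ.ker_ne_bot
    rw [eq_bot_iff]
    intro z hz
    have h10 := hinv z hz
    rw [h9, one_mul, inv_one, mul_one] at h10
    obtain ⟨k, hk⟩ := hρ.pgroup ⟨z, hz⟩
    have hk' : z ^ (5 ^ k) = 1 := congrArg Subtype.val hk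
    have hk2 : z ^ 2 = 1 := by
      rw [pow_two]; nth_rewrite 2 [h10]; rw [mul_inv_cancel]
    rw [Subgroup.mem_bot, ← orderOf_eq_one_iff]
    have hcop : Nat.Coprime (5 ^ k) 2 := Nat.Coprime.pow_left _ (by norm_num)
    exact Nat.eq_one_of_dvd_coprimes hcop (orderOf_dvd_of_pow_eq_one hk')
      (orderOf_dvd_of_pow_eq_one hk2)

lemma noSec_of_comm {G : Type} [Group G] (N : Subgroup G) (h1 : IsPGroup 5 N)
    (h2 : ∀ a b : G, a * b * a⁻¹ * b⁻¹ ∈ N) : NoSec G := by
  intro U Y _ φ ρ hφ hρ
  have h3 : N.subgroupOf U ≤ (ρ.comp φ).ker :=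
    ptwo_le_ker _ _ (h1.comap_of_injective U.subtype U.subtype_injective)
  obtain ⟨y, hy⟩ := hρ.surj (Equiv.swap 0 1)
  obtain ⟨a, rfl⟩ := hφ y
  obtain ⟨z, hz⟩ := hρ.surj (Equiv.swap 1 2)
  obtain ⟨b, rfl⟩ := hφ z
  have h4 : a * b * a⁻¹ * b⁻¹ ∈ (ρ.comp φ).ker := h3 (h2 a b)
  rw [MonoidHom.mem_ker, map_mul, map_mul, map_mul, map_inv, map_inv] at h4
  simp only [MonoidHom.comp_apply, hy, hz] at h4
  exact absurd h4 (by decide)

/-- Wreath products show that the class is not a Fitting class. -/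
lemma not_fitting_of {p : ℕ} (hp : p.Prime) (hp5 : p ≠ 5) {X : Type} [Group X] [Finite X]
    [Group.IsSolvable X] (A B : Subgroup X) (hA : A.Normal) (hB : B.Normal) (hAB : A ⊔ B = ⊤)
    (hAno : NoSec A) (hBno : NoSec B) (hX : ¬ NoSec X) : ¬ IsFitting (FF p) := by
  intro hF
  have hpf : Fact p.Prime := ⟨hp⟩
  have hz : NeZero p := ⟨hp.ne_zero⟩
  let W : Type := RegularWreathProduct (Multiplicative (ZMod p)) X
  let π : RegularWreathProduct (Multiplicative (ZMod p)) X →* X := RegularWreathProduct.rightHom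
  have hπ : Function.Surjective π := fun x => ⟨⟨1, x⟩, rfl⟩
  have hker : ∀ w : RegularWreathProduct (Multiplicative (ZMod p)) X, w ∈ π.ker → w ^ p = 1 := by
    intro w hw
    have h1 : w.right = 1 := hw
    have h2 : ∀ n : ℕ, w ^ n = ⟨w.left ^ n, 1⟩ := by
      intro n
      induction n with
      | zero => rw [pow_zero, pow_zero]; rfl
      | succ n ih =>
        rw [pow_succ, ih, pow_succ]
        ext
        · simp
        · simp [h1]
    rw [h2]
    ext x
    · show (w.left ^ p) x = 1
      rw [Pi.pow_apply]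
      apply Multiplicative.toAdd.injective
      rw [toAdd_pow, toAdd_one, nsmul_eq_mul, CharP.cast_eq_zero, zero_mul]
    · rfl
  have hkerp : IsPGroup p π.ker := by
    rintro ⟨w, hw⟩
    exact ⟨1, Subtype.ext (by rw [pow_one]; exact hker w hw)⟩
  have hsolK : Group.IsSolvable π.ker := by
    have : Group.IsNilpotent π.ker := hkerp.isNilpotent
    infer_instance
  have hsolW : Group.IsSolvable (RegularWreathProduct (Multiplicative (ZMod p)) X) :=
    Group.isSolvable_of_ker_le_range π.ker.subtype π (by rw [Subgroup.range_subtype])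
  have key : ∀ A : Subgroup X, NoSec A → FF p (A.comap π : Subgroup _) := by
    intro A hA
    refine ⟨inferInstance, inferInstance, ⊥, inferInstance, ?_, ?_⟩
    · rw [Subgroup.card_bot]; exact hp.one_lt.ne' ∘ Nat.dvd_one.1
    · have h1 : NoSec (A.comap π : Subgroup _) := by
        refine NoSec.of_pker (π.subgroupComap A) hp hp5 ?_ hA
        rintro ⟨⟨w, hw⟩, hw'⟩
        have h2 : π w = 1 := congrArg Subtype.val (MonoidHom.mem_ker.1 hw')
        refine ⟨1, ?_⟩
        apply Subtype.ext
        apply Subtype.ext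
        rw [pow_one]
        exact hker w h2
      exact h1.of_surjective _ (QuotientGroup.mk'_surjective ⊥)
  have h1 := hF.2 (RegularWreathProduct (Multiplicative (ZMod p)) X) (A.comap π) (B.comap π)
    (hA.comap π) (hB.comap π) (key A hAno) (key B hBno)
  rw [Subgroup.comap_sup_eq _ _ _ hπ, hAB, Subgroup.comap_top] at h1
  have h2 : FF p (RegularWreathProduct (Multiplicative (ZMod p)) X) :=
    h1.of_surjective (⊤ : Subgroup (RegularWreathProduct (Multiplicative (ZMod p)) X)).subtype
      (fun x => ⟨⟨x, trivial⟩, rfl⟩)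
  obtain ⟨-, -, N, hN, hNp, hno⟩ := h2
  have hNb : N = ⊥ := by
    rw [eq_bot_iff]
    intro n hn
    -- `n` commutes with the base group
    have hcomm : ∀ k ∈ π.ker, n * k = k * n := by
      intro k hk
      have h3 : n * k * n⁻¹ * k⁻¹ ∈ N := by
        have : n * k * n⁻¹ * k⁻¹ = n * (k * n⁻¹ * k⁻¹) := by group
        rw [this]
        exact mul_mem hn (hN.conj_mem _ (inv_mem hn) _)
      have h4 : n * k * n⁻¹ * k⁻¹ ∈ π.ker :=
        π.ker.mul_mem ((inferInstance : π.ker.Normal).conj_mem k hk n) (π.ker.inv_mem hk)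
      have h5 := pp_pelement hp hNp h3 (k := 1) (by rw [pow_one]; exact hker _ h4)
      rwa [mul_inv_eq_one, mul_inv_eq_iff_eq_mul] at h5
    have hr : n.right = 1 := by
      classical
      have h6 := hcomm ⟨fun x => if x = 1 then Multiplicative.ofAdd 1 else 1, 1⟩ rfl
      have h7 := congrFun (congrArg RegularWreathProduct.left h6) n.right
      simp only [RegularWreathProduct.mul_left, Pi.mul_apply, inv_mul_cancel, if_true, inv_one,
        one_mul] at h7
      rw [mul_comm] at h7
      have h8 := mul_right_cancel h7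
      by_contra hne
      rw [if_neg hne] at h8
      have h9 : (1 : ZMod p) = 0 := Multiplicative.ofAdd.injective h8
      have : Fact (1 < p) := ⟨hp.one_lt⟩
      exact one_ne_zero h9
    rw [Subgroup.mem_bot]
    exact pp_pelement hp hNp hn (k := 1) (by rw [pow_one]; exact hker n hr)
  subst hNb
  apply hX
  have h3 : NoSec (RegularWreathProduct (Multiplicative (ZMod p)) X) := by
    refine hno.of_injective (QuotientGroup.mk' ⊥) ?_
    rw [← MonoidHom.ker_eq_bot_iff, QuotientGroup.ker_mk']
  exact h3.of_surjective π hπ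

/-- The group `F_5^3 ⋊ (S_3 × F_5^*)`. -/
@[ext] structure Big where
  v : Fin 3 → ZMod 5
  s : S3
  u : (ZMod 5)ˣ

namespace Big

instance : Mul Big :=
  ⟨fun x y => ⟨x.v + fun i => (x.u : ZMod 5) * y.v (x.s⁻¹ i), x.s * y.s, x.u * y.u⟩⟩
instance : One Big := ⟨⟨0, 1, 1⟩⟩
instance : Inv Big :=
  ⟨fun x => ⟨fun i => -(((x.u⁻¹ : (ZMod 5)ˣ) : ZMod 5) * x.v (x.s i)), x.s⁻¹, x.u⁻¹⟩⟩

@[simp] lemma mul_v (x y : Big) : (x * y).v = x.v + fun i => (x.u : ZMod 5) * y.v (x.s⁻¹ i) := rfl
@[simp] lemma mul_s (x y : Big) : (x * y).s = x.s * y.s := rfl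
@[simp] lemma mul_u (x y : Big) : (x * y).u = x.u * y.u := rfl
@[simp] lemma one_v : (1 : Big).v = 0 := rfl
@[simp] lemma one_s : (1 : Big).s = 1 := rfl
@[simp] lemma one_u : (1 : Big).u = 1 := rfl
@[simp] lemma inv_v (x : Big) :
    (x⁻¹).v = fun i => -(((x.u⁻¹ : (ZMod 5)ˣ) : ZMod 5) * x.v (x.s i)) := rfl
@[simp] lemma inv_s (x : Big) : (x⁻¹).s = x.s⁻¹ := rfl
@[simp] lemma inv_u (x : Big) : (x⁻¹).u = x.u⁻¹ := rfl

instance : Group Big :=
  Group.ofLeftAxioms
    (by
      intro x y z
      ext i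
      · simp [mul_assoc, mul_add, add_assoc]
      · simp [mul_assoc]
      · simp [mul_assoc])
    (by
      intro x
      ext i <;> simp)
    (by
      intro x
      ext i
      · simp
      · simp
      · simp)

instance : Finite Big :=
  Finite.of_injective (fun x : Big => (x.v, x.s, x.u)) (by
    intro x y h
    simp only [Prod.mk.injEq] at h
    exact Big.ext h.1 h.2.1 h.2.2)

/-- The projection to `S3`. -/
def ps : Big →* S3 where
  toFun := Big.s
  map_one' := rfl
  map_mul' _ _ := rfl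

/-- The projection to the scalars. -/
def pu : Big →* (ZMod 5)ˣ where
  toFun := Big.u
  map_one' := rfl
  map_mul' _ _ := rfl

/-- Translations. -/
def tr (v : Fin 3 → ZMod 5) : Big := ⟨v, 1, 1⟩

lemma tr_mul (v w : Fin 3 → ZMod 5) : tr v * tr w = tr (v + w) := by
  ext i <;> simp [tr]

lemma tr_pow (v : Fin 3 → ZMod 5) (n : ℕ) : tr v ^ n = tr (n • v) := by
  induction n with
  | zero => rw [pow_zero, zero_nsmul]; rfl
  | succ n ih => rw [pow_succ, ih, tr_mul, succ_nsmul]

lemma tr_five (v : Fin 3 → ZMod 5) : tr v ^ 5 = 1 := by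
  rw [tr_pow]
  have : (5 : ℕ) • v = 0 := by
    ext i
    rw [Pi.smul_apply, nsmul_eq_mul]
    have : ((5 : ℕ) : ZMod 5) = 0 := rfl
    rw [this, zero_mul]; rfl
  rw [this]; rfl

end Big

instance solvable_S3 : Group.IsSolvable S3 := by
  have h1 : Group.IsNilpotent sgn.ker := sgn_ker_nilp
  have h2 : Group.IsSolvable sgn.ker := inferInstance
  exact Group.isSolvable_of_ker_le_range sgn.ker.subtype sgn (by rw [Subgroup.range_subtype])

namespace Big

/-- The subgroup of translations. -/
def NX : Subgroup Big := (ps.prod pu).ker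

lemma mem_NX {x : Big} : x ∈ NX ↔ x.s = 1 ∧ x.u = 1 := by
  rw [NX, MonoidHom.mem_ker]
  exact Prod.ext_iff

lemma eq_tr {x : Big} (hx : x ∈ NX) : x = tr x.v := by
  obtain ⟨h1, h2⟩ := mem_NX.1 hx
  ext i
  · rfl
  · rw [h1]; rfl
  · rw [h2]; rfl

lemma NX_pgroup : IsPGroup 5 NX := by
  rintro ⟨x, hx⟩
  refine ⟨1, Subtype.ext ?_⟩
  show x ^ (5 ^ 1) = 1
  rw [pow_one, eq_tr hx, tr_five]

lemma five_mem_NX {x : Big} {k : ℕ} (hx : x ^ (5 ^ k) = 1) : x ∈ NX := by
  rw [mem_NX]
  constructor
  · have h1 : (ps x) ^ (5 ^ k) = 1 := by rw [← map_pow, hx, map_one]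
    have h2 : (ps x) ^ 6 = 1 := by rw [← card_S3]; exact pow_card_eq_one'
    show ps x = 1
    rw [← orderOf_eq_one_iff]
    exact Nat.eq_one_of_dvd_coprimes (Nat.Coprime.pow_left k (by norm_num))
      (orderOf_dvd_of_pow_eq_one h1) (orderOf_dvd_of_pow_eq_one h2)
  · have h1 : (pu x) ^ (5 ^ k) = 1 := by rw [← map_pow, hx, map_one]
    have h2 : ∀ u : (ZMod 5)ˣ, u ^ 4 = 1 := by decide
    show pu x = 1
    rw [← orderOf_eq_one_iff]
    exact Nat.eq_one_of_dvd_coprimes (Nat.Coprime.pow_left k (by norm_num : Nat.Coprime 5 4))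
      (orderOf_dvd_of_pow_eq_one h1) (orderOf_dvd_of_pow_eq_one (h2 _))

instance : Group.IsSolvable Big := by
  have h5 : Fact (Nat.Prime 5) := ⟨by norm_num⟩
  have h1 : Group.IsNilpotent NX := NX_pgroup.isNilpotent
  have h2 : Group.IsSolvable NX := inferInstance
  refine Group.isSolvable_of_ker_le_range NX.subtype (ps.prod pu) ?_
  rw [Subgroup.range_subtype]
  exact le_rfl

/-- The sign with values in the units of `ZMod 5`. -/
def sgnU : S3 →* (ZMod 5)ˣ := (Units.map (Int.castRingHom (ZMod 5)).toMonoidHom).comp sgn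

/-- The character defining `A`. -/
def chiA : Big →* (ZMod 5)ˣ := (sgnU.comp ps) * ((powMonoidHom 2).comp pu)

lemma chiA_apply (x : Big) : chiA x = sgnU x.s * x.u ^ 2 := rfl

/-- The first normal subgroup. -/
def A : Subgroup Big := chiA.ker
/-- The second normal subgroup. -/
def B : Subgroup Big := (sgn.comp ps).ker

instance : A.Normal := inferInstanceAs chiA.ker.Normal
instance : B.Normal := inferInstanceAs (sgn.comp ps).ker.Normal

lemma A_sup_B : A ⊔ B = ⊤ := by
  rw [eq_top_iff]
  intro x _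
  rcases Int.units_eq_one_or (sgn x.s) with h | h
  · exact Subgroup.mem_sup_right h
  · let u2 : (ZMod 5)ˣ := ⟨2, 3, by decide, by decide⟩
    let a : Big := ⟨0, x.s, u2⟩
    have ha : a ∈ A := by
      show chiA a = 1
      rw [chiA_apply]
      show sgnU x.s * u2 ^ 2 = 1
      have h1 : sgnU x.s = Units.map (Int.castRingHom (ZMod 5)).toMonoidHom (sgn x.s) := rfl
      rw [h1, h]
      decide
    have hb : a⁻¹ * x ∈ B := by
      show sgn ((a⁻¹ * x).s) = 1
      have : (a⁻¹ * x).s = 1 := by
        show x.s⁻¹ * x.s = 1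
        exact inv_mul_cancel _
      rw [this, map_one]
    have := mul_mem (Subgroup.mem_sup_left ha : a ∈ A ⊔ B) (Subgroup.mem_sup_right hb)
    rwa [mul_inv_cancel_left] at this

lemma A_noSec : NoSec A := by
  refine noSec_of_inverting (NX.subgroupOf A) ?_ ?_
  · intro x k hx
    exact five_mem_NX (congrArg Subtype.val hx)
  · rintro ⟨t, htA⟩ ht2 ht1 ⟨n, hnA⟩ hn
    have ht2' : t * t = 1 := congrArg Subtype.val ht2
    have ht1' : t ≠ 1 := fun h => ht1 (Subtype.ext h)
    have hn' := eq_tr (show n ∈ NX from hn)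
    apply Subtype.ext
    show t * n * t⁻¹ = n⁻¹
    have hs : t.s * t.s = 1 := congrArg Big.s ht2'
    have hu : t.u * t.u = 1 := congrArg Big.u ht2'
    have hA : sgnU t.s * t.u ^ 2 = 1 := htA
    rw [pow_two, hu, mul_one] at hA
    have key : ∀ s : S3, s * s = 1 → sgnU s = 1 → s = 1 := by decide
    have hs1 := key t.s hs hA
    have key2 : ∀ u : (ZMod 5)ˣ, u * u = 1 → u = 1 ∨ u = -1 := by decide
    rcases key2 t.u hu with hu1 | hu1
    · exfalso
      apply ht1'
      have hv : t.v + t.v = 0 := by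
        have := congrArg Big.v ht2'
        simpa [hs1, hu1] using this
      ext i
      · have h1 := congrFun hv i
        have key3 : ∀ a : ZMod 5, a + a = 0 → a = 0 := by decide
        exact key3 _ h1
      · rw [hs1]; rfl
      · rw [hu1]; rfl
    · rw [hn']
      ext i
      · simp [tr, hs1, hu1]
      · simp [tr, hs1]
      · simp [tr, hu1]

lemma B_noSec : NoSec B := by
  refine noSec_of_comm (NX.subgroupOf B) ?_ ?_
  · exact NX_pgroup.comap_of_injective B.subtype B.subtype_injective
  · rintro ⟨a, ha⟩ ⟨b, hb⟩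
    show a * b * a⁻¹ * b⁻¹ ∈ NX
    rw [mem_NX]
    have key : ∀ s t : S3, sgn s = 1 → sgn t = 1 → s * t * s⁻¹ * t⁻¹ = 1 := by decide
    refine ⟨key _ _ ha hb, ?_⟩
    show a.u * b.u * a.u⁻¹ * b.u⁻¹ = 1
    rw [mul_comm a.u b.u]; group

/-- The subgroup carrying the bad quotient. -/
def U0 : Subgroup Big where
  carrier := {x | ∑ i, x.v i = 0 ∧ x.u = 1}
  mul_mem' := by
    rintro x y ⟨h1, h2⟩ ⟨h3, h4⟩
    refine ⟨?_, by rw [mul_u, h2, h4, mul_one]⟩
    rw [mul_v, h2]
    simp only [Pi.add_apply, Units.val_one, one_mul, Finset.sum_add_distrib, h1, zero_add]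
    rw [Equiv.sum_comp x.s⁻¹ y.v, h3]
  one_mem' := by
    refine ⟨?_, rfl⟩
    simp
  inv_mem' := by
    rintro x ⟨h1, h2⟩
    refine ⟨?_, by rw [inv_u, h2, inv_one]⟩
    rw [inv_v, h2]
    simp only [inv_one, Units.val_one, one_mul, Finset.sum_neg_distrib]
    rw [Equiv.sum_comp x.s x.v, h1, neg_zero]

lemma tr_mem_U0 {v : Fin 3 → ZMod 5} (hv : ∑ i, v i = 0) : tr v ∈ U0 := ⟨hv, rfl⟩

/-- The projection of `U0` to `S3`. -/
def ρ0 : U0 →* S3 := ps.comp U0.subtype

lemma mem_ker_ρ0 {x : U0} : x ∈ ρ0.ker ↔ (x : Big) = tr (x : Big).v := by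
  constructor
  · intro h
    exact eq_tr (mem_NX.2 ⟨h, x.2.2⟩)
  · intro h
    show (x : Big).s = 1
    rw [h]; rfl

lemma det_ne : ∀ x y : ZMod 5, x * x + x * y + y * y = 0 → x = 0 ∧ y = 0 := by decide

lemma bad_ρ0 : BadHom ρ0 where
  surj := by
    intro σ
    exact ⟨⟨⟨0, σ, 1⟩, by constructor <;> simp⟩, rfl⟩
  pgroup := by
    rintro ⟨x, hx⟩
    rw [mem_ker_ρ0] at hx
    refine ⟨1, ?_⟩
    apply Subtype.ext
    apply Subtype.ext
    show (x : Big) ^ (5 ^ 1) = 1
    rw [pow_one, hx, tr_five]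
  cent := by
    intro x hx
    rw [Subgroup.mem_centralizer_iff] at hx
    show (x : Big).s = 1
    have key : ∀ v : Fin 3 → ZMod 5, ∑ i, v i = 0 → ∀ i, v ((x : Big).s⁻¹ i) = v i := by
      intro v hv i
      have h1 := hx ⟨tr v, tr_mem_U0 hv⟩ (mem_ker_ρ0.2 rfl)
      have h2 := congrFun (congrArg Big.v (congrArg Subtype.val h1)) i
      have h3 : (x : Big).u = 1 := x.2.2
      simp only [Subgroup.coe_mul, mul_v, Pi.add_apply, tr, h3, Units.val_one, one_mul,
        inv_one, Equiv.Perm.coe_one, id] at h2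
      rw [add_comm] at h2
      exact (add_left_cancel h2).symm
    have k1 := key ![1, -1, 0] (by decide)
    have k2 := key ![0, 1, -1] (by decide)
    have key2 : ∀ σ : S3, (∀ i, (![1, -1, 0] : Fin 3 → ZMod 5) (σ⁻¹ i) = ![1, -1, 0] i) →
        (∀ i, (![0, 1, -1] : Fin 3 → ZMod 5) (σ⁻¹ i) = ![0, 1, -1] i) → σ = 1 := by decide
    exact key2 _ k1 k2
  min := by
    intro R hR hle
    by_cases hb : R = ⊥
    · exact Or.inl hb
    · right
      apply le_antisymm hle
      obtain ⟨⟨x, hx⟩, hx1⟩ := Subgroup.ne_bot_iff_exists_ne_one.1 hb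
      have hx1' : x ≠ 1 := fun h => hx1 (Subtype.ext h)
      have hxt : (x : Big) = tr (x : Big).v := mem_ker_ρ0.1 (hle hx)
      set v := (x : Big).v with hv
      have hvsum : ∑ i, v i = 0 := x.2.1
      have hv0 : v ≠ 0 := by
        intro h
        apply hx1'
        apply Subtype.ext
        rw [hxt, h]; rfl
      -- membership of translations
      have hmem1 : (⟨tr v, tr_mem_U0 hvsum⟩ : U0) ∈ R := by
        have : (⟨tr v, tr_mem_U0 hvsum⟩ : U0) = x := Subtype.ext hxt.symm
        rw [this]; exact hx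
      set v' : Fin 3 → ZMod 5 := fun i => v ((finRotate 3)⁻¹ i) with hv'
      have hv'sum : ∑ i, v' i = 0 := by
        rw [hv']; exact (Equiv.sum_comp (finRotate 3)⁻¹ v).trans hvsum
      have hmem2 : (⟨tr v', tr_mem_U0 hv'sum⟩ : U0) ∈ R := by
        let c : U0 := ⟨⟨0, finRotate 3, 1⟩, by constructor <;> simp⟩
        have h1 := hR.conj_mem _ hmem1 c
        have h2 : c * ⟨tr v, tr_mem_U0 hvsum⟩ * c⁻¹ = (⟨tr v', tr_mem_U0 hv'sum⟩ : U0) := by
          apply Subtype.ext
          show (⟨0, finRotate 3, 1⟩ : Big) * tr v * (⟨0, finRotate 3, 1⟩ : Big)⁻¹ = tr v'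
          ext i
          · simp [tr, hv']
          · simp [tr]
          · simp [tr]
        rwa [h2] at h1
      intro y hy
      have hyt := mem_ker_ρ0.1 hy
      set w := (y : Big).v with hw
      have hwsum : ∑ i, w i = 0 := y.2.1
      rw [Fin.sum_univ_three] at hvsum hwsum
      have h2 : v' 0 = v 2 := rfl
      have h3 : v' 1 = v 0 := rfl
      have h4 : v' 2 = v 1 := rfl
      set D : ZMod 5 := v 0 * v 0 + v 0 * v 1 + v 1 * v 1 with hD
      have hDne : D ≠ 0 := by
        intro h
        obtain ⟨h5, h6⟩ := det_ne _ _ h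
        apply hv0
        ext i
        fin_cases i
        · exact h5
        · exact h6
        · show v 2 = 0
          rw [h5, h6] at hvsum; simpa using hvsum
      have hz : v 2 = -v 0 - v 1 := by linear_combination hvsum
      have hwz : w 2 = -w 0 - w 1 := by linear_combination hwsum
      set a : ZMod 5 := (w 0 * v 0 - w 1 * v 2) * D⁻¹ with ha
      set b : ZMod 5 := (w 1 * v 0 - w 0 * v 1) * D⁻¹ with hb'
      have h5f : Fact (Nat.Prime 5) := ⟨by norm_num⟩
      have hDD : D * D⁻¹ = 1 := mul_inv_cancel₀ hDne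
      have hcomb : w = a.val • v + b.val • v' := by
        ext i
        rw [Pi.add_apply, Pi.smul_apply, Pi.smul_apply, nsmul_eq_mul, nsmul_eq_mul,
          ZMod.natCast_zmod_val, ZMod.natCast_zmod_val]
        fin_cases i
        · show w 0 = a * v 0 + b * v' 0
          rw [h2, ha, hb', hz]
          linear_combination (-w 0) * hDD
        · show w 1 = a * v 1 + b * v' 1
          rw [h3, ha, hb', hz]
          linear_combination (-w 1) * hDD
        · show w 2 = a * v 2 + b * v' 2
          rw [h4, ha, hb', hz, hwz]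
          linear_combination (w 0 + w 1) * hDD
      have h6 : y = (⟨tr v, tr_mem_U0 (by rw [Fin.sum_univ_three]; exact hvsum)⟩ : U0) ^ a.val *
          (⟨tr v', tr_mem_U0 hv'sum⟩ : U0) ^ b.val := by
        apply Subtype.ext
        show (y : Big) = tr v ^ a.val * tr v' ^ b.val
        rw [tr_pow, tr_pow, tr_mul, ← hcomb]
        exact hyt
      rw [h6]
      exact mul_mem (pow_mem hmem1 _) (pow_mem hmem2 _)

lemma not_noSec : ¬ NoSec Big := by
  intro h
  exact (h.subgroup U0).not_badHom (MonoidHom.id U0) Function.surjective_id ρ0 bad_ρ0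

end Big

lemma nilLength_lt {G : Type} [Group G] (h3 : ¬ NilLe 3 G) (hex : ∃ n, NilLe n G)
    {U : Subgroup G} (hU : NilLe 3 U) : nilLength U < nilLength G := by
  have h1 : nilLength U ≤ 3 := Nat.sInf_le hU
  have h2 : NilLe (nilLength G) G := Nat.sInf_mem hex
  have h4 : ¬ nilLength G ≤ 3 := fun h => h3 (h2.mono h)
  omega

lemma exists_nilLe (n : ℕ) : ∀ (G : Type) [Group G] [Finite G] [Group.IsSolvable G],
    Nat.card G = n → ∃ k, NilLe k G := by
  induction n using Nat.strong_induction_on with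
  | _ n ih =>
    intro G _ _ _ hn
    by_cases htriv : (⊤ : Subgroup G) = ⊥
    · refine ⟨0, ?_⟩
      constructor
      intro a b
      have ha : a ∈ (⊤ : Subgroup G) := trivial
      have hb : b ∈ (⊤ : Subgroup G) := trivial
      rw [htriv, Subgroup.mem_bot] at ha hb
      rw [ha, hb]
    · obtain ⟨X, hXn, -, hXne, hXmin⟩ := exists_minimal_normal (⊤ : Subgroup G) inferInstance htriv
      obtain ⟨q, hq, hXq⟩ := minimal_pgroup X hXn hXne hXmin
      have hqf : Fact q.Prime := ⟨hq⟩
      have hlt : Nat.card (G ⧸ X) < n := by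
        rw [← hn, Subgroup.card_eq_card_quotient_mul_card_subgroup X]
        apply lt_mul_of_one_lt_right Nat.card_pos
        exact (Subgroup.one_lt_card_iff_ne_bot X).2 hXne
      obtain ⟨k, hk⟩ := ih _ hlt (G ⧸ X) rfl
      exact ⟨k + 1, X, hXn, hXq.isNilpotent, hk⟩

/-- There is a soluble local hereditary formation, not a Fitting class, such that all proper
subgroups of a soluble minimal non-`F`-group `G` have nilpotent length less than that of `G`. -/
theorem result : ∃ F : GroupClass, IsFormation F ∧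
    (∀ (G : Type) [Group G], F G → Group.IsSolvable G) ∧ IsHereditary F ∧ IsLocal F ∧
    (∀ (G : Type) [Group G] [Finite G] [Group.IsSolvable G], IsMinimalNon F G →
      ∀ H : Subgroup G, H ≠ ⊤ → nilLength H < nilLength G) ∧
    ¬ IsFitting F := by
  have hp : Nat.Prime 7 := by norm_num
  have hp5 : (7 : ℕ) ≠ 5 := by norm_num
  refine ⟨FF 7, isFormation_FF hp, fun G _ h => h.2.1,
    fun G _ H h => h.of_injective H.subtype H.subtype_injective, isLocal_FF hp hp5, ?_,
    not_fitting_of hp hp5 Big.A Big.B inferInstance inferInstance Big.A_sup_B Big.A_noSec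
      Big.B_noSec Big.not_noSec⟩
  intro G _ _ _ hG H hH
  obtain ⟨h1, h2⟩ := star hp hp5 hG.1 hG.2
  exact nilLength_lt h1 (exists_nilLe _ G rfl) (h2 H hH)

end Pool.Agent.Results.MP_99d208_al.NotRadical
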